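import Pool.Agent.Helper43.L6.Defs

/-!
# Project L6: factorisation of the monomials
-/

set_option autoImplicit false

namespace Pool.L6

/-- `x₅^(2b) x₃^(2c) (x₁² x₄⁴)^i (x₂³ x₆)^j r`. -/
def comp (b c i j : ℕ) (r : Mon) : Mon :=
  ⟨r.e1 + 2 * i, r.e2 + 3 * j, r.e3 + 2 * c, r.e4 + 4 * i, r.e5 + 2 * b, r.e6 + j⟩

/-- The exponent of `x₅²`. -/
def bOf (e : Mon) : ℕ := e.e5 / 2

/-- The exponent of `x₃²`. -/
def cOf (e : Mon) : ℕ := e.e3 / 2

/-- The exponent of `x₁² x₄⁴`. -/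
def iOf (e : Mon) : ℕ := min (e.e1 / 2) (e.e4 / 4)

/-- The exponent of `x₂³ x₆`. -/
def jOf (e : Mon) : ℕ := min (e.e2 / 3) e.e6

/-- The reduced part. -/
def rOf (e : Mon) : Mon :=
  ⟨e.e1 - 2 * iOf e, e.e2 - 3 * jOf e, e.e3 % 2, e.e4 - 4 * iOf e, e.e5 % 2, e.e6 - jOf e⟩

/-- The degree. -/
def deg (e : Mon) : ℕ := e.e1 + e.e2 + e.e3 + e.e4 + e.e5 + e.e6

/-- The rank. -/
def rk (e : Mon) : ℕ := e.e1 + 2 * e.e2 + 3 * e.e3 + 4 * e.e4 + 5 * e.e5 + 6 * e.e6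

theorem Mon.ext' {e f : Mon} (h1 : e.e1 = f.e1) (h2 : e.e2 = f.e2) (h3 : e.e3 = f.e3)
    (h4 : e.e4 = f.e4) (h5 : e.e5 = f.e5) (h6 : e.e6 = f.e6) : e = f := by
  cases e; cases f; simp_all

theorem red_rOf (e : Mon) : Red (rOf e) := by
  unfold Red rOf iOf jOf
  simp only
  omega

theorem comp_rOf (e : Mon) : comp (bOf e) (cOf e) (iOf e) (jOf e) (rOf e) = e := by
  apply Mon.ext' <;> simp only [comp, bOf, cOf, iOf, jOf, rOf] <;> omega

theorem comp_inj {b b' c c' i i' j j' : ℕ} {r s : Mon} (hr : Red r) (hs : Red s)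
    (h : comp b c i j r = comp b' c' i' j' s) :
    b = b' ∧ c = c' ∧ i = i' ∧ j = j' ∧ r = s := by
  have e1 : r.e1 + 2 * i = s.e1 + 2 * i' := congrArg Mon.e1 h
  have e2 : r.e2 + 3 * j = s.e2 + 3 * j' := congrArg Mon.e2 h
  have e3 : r.e3 + 2 * c = s.e3 + 2 * c' := congrArg Mon.e3 h
  have e4 : r.e4 + 4 * i = s.e4 + 4 * i' := congrArg Mon.e4 h
  have e5 : r.e5 + 2 * b = s.e5 + 2 * b' := congrArg Mon.e5 h
  have e6 : r.e6 + j = s.e6 + j' := congrArg Mon.e6 h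
  unfold Red at hr hs
  have hi : i = i' := by omega
  have hj : j = j' := by omega
  refine ⟨by omega, by omega, hi, hj, Mon.ext' ?_ ?_ ?_ ?_ ?_ ?_⟩ <;> omega

theorem rOf_comp {b c i j : ℕ} {r : Mon} (hr : Red r) :
    bOf (comp b c i j r) = b ∧ rOf (comp b c i j r) = r := by
  have h := comp_inj (red_rOf _) hr (comp_rOf (comp b c i j r))
  exact ⟨h.1, h.2.2.2.2⟩

theorem Mv_unique {k : ℕ} {e f g : Mon} (h : Mv k e f) (h' : Mv k e g) : f = g := by
  unfold Mv at h h'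
  apply Mon.ext' <;> omega

theorem x45_inj {u v : Mon} (h : x45 u = x45 v) : u = v := by
  unfold x45 at h
  rw [Mon.mk.injEq] at h
  apply Mon.ext' <;> omega

theorem x1_inj {u v : Mon} (h : x1 u = x1 v) : u = v := by
  unfold x1 at h
  rw [Mon.mk.injEq] at h
  apply Mon.ext' <;> omega

theorem deg_comp (b c i j : ℕ) (r : Mon) :
    deg (comp b c i j r) = deg r + 6 * i + 4 * j + 2 * b + 2 * c := by
  simp only [deg, comp]
  omega

theorem rk_comp (b c i j : ℕ) (r : Mon) :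
    rk (comp b c i j r) = rk r + 18 * i + 12 * j + 10 * b + 6 * c := by
  simp only [rk, comp]
  omega

theorem rk_eq (e : Mon) : (rk e : ℤ) = 3 * deg e + hz e := by
  unfold rk deg hz
  push_cast
  ring

theorem rk_eq_comp (b c i j : ℕ) (r : Mon) :
    (rk (comp b c i j r) : ℤ) = 3 * deg (comp b c i j r) + 4 * b + hz r := by
  have h := rk_eq r
  rw [rk_comp, deg_comp]
  push_cast
  linarith

theorem Mv_deg {k : ℕ} {e f : Mon} (h : Mv k e f) : deg f = deg e ∧ rk f = rk e + 1 := by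
  unfold Mv at h
  unfold deg rk
  omega

theorem deg_x1 (e : Mon) : deg (x1 e) = deg e + 1 ∧ rk (x1 e) = rk e + 1 := by
  unfold deg rk x1
  simp only
  omega

theorem deg_x45 (e : Mon) : deg (x45 e) = deg e + 2 ∧ rk (x45 e) = rk e + 9 := by
  unfold deg rk x45
  simp only
  omega

theorem red_of_x1 {e : Mon} (h : Red (x1 e)) : Red e := by
  unfold Red x1 at h
  unfold Red
  simp only at h
  omega

theorem red_of_x45 {e : Mon} (h : Red (x45 e)) : Red e := by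
  unfold Red x45 at h
  unfold Red
  simp only at h
  omega

/-- The monomial of a partition. -/
def toMon (x : Fin 6 → ℕ) : Mon := ⟨x 5 - x 4, x 4 - x 3, x 3 - x 2, x 2 - x 1, x 1 - x 0, x 0⟩

/-- The partition of a monomial. -/
def ofMon (e : Mon) : Fin 6 → ℕ :=
  ![e.e6, e.e6 + e.e5, e.e6 + e.e5 + e.e4, e.e6 + e.e5 + e.e4 + e.e3,
    e.e6 + e.e5 + e.e4 + e.e3 + e.e2, e.e6 + e.e5 + e.e4 + e.e3 + e.e2 + e.e1]

theorem to_of (e : Mon) : toMon (ofMon e) = e := by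
  apply Mon.ext' <;> simp [toMon, ofMon]

theorem mono_of (e : Mon) : Monotone (ofMon e) := by
  refine Fin.monotone_iff_le_succ.2 ?_
  intro i
  fin_cases i <;> simp [ofMon]

theorem le_of (e : Mon) (n : ℕ) : (∀ i, ofMon e i ≤ n) ↔ deg e ≤ n := by
  constructor
  · intro h
    have := h 5
    simp [ofMon] at this
    unfold deg
    omega
  · intro h i
    unfold deg at h
    fin_cases i <;> simp [ofMon] <;> omega

theorem of_to {x : Fin 6 → ℕ} (hx : Monotone x) : ofMon (toMon x) = x := by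
  have h0 : x 0 ≤ x 1 := hx (by decide)
  have h1 : x 1 ≤ x 2 := hx (by decide)
  have h2 : x 2 ≤ x 3 := hx (by decide)
  have h3 : x 3 ≤ x 4 := hx (by decide)
  have h4 : x 4 ≤ x 5 := hx (by decide)
  ext i
  fin_cases i <;> simp [ofMon, toMon] <;> omega

theorem sum_of (e : Mon) : ∑ i, ofMon e i = rk e := by
  rw [Fin.sum_univ_six]
  simp [ofMon, rk]
  omega

theorem mem_deg {n : ℕ} {x : Fin 6 → ℕ} (hx : Monotone x ∧ ∀ i, x i ≤ n) :
    deg (toMon x) ≤ n := by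
  rw [← le_of, of_to hx.1]
  exact hx.2

end Pool.L6
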