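import Pool.Agent.Helper43.L6.Sound

/-!
# Project L6: assembly
-/

set_option autoImplicit false

namespace Pool.L6

open Pool.LS (LLab allN getRow SCO)
open Pool.LB (bif_true ble_true ble_false blt_true blt_false nbeq_true nbeq_false allN_true)

theorem rows_soundP (C D : ℕ → ℕ → ℕ → ℕ → ℕ → ℕ → ℕ) (ex : Bool)
    (h : ∀ e6 < 14, chkRowP C D ex 22 e6 = true) :
    ∀ e, Red e → InOm e → AllP (labK C) (moOf C) (labK D) (moOf D) (ex = true) e := by
  intro e hr ho
  apply chkP_sound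
  obtain ⟨e1, e2, e3, e4, e5, e6⟩ := e
  obtain ⟨r1, r2, r3, r4⟩ := hr
  obtain ⟨o1, o2, o3, o4, o5⟩ := ho
  simp only at r1 r2 r3 r4 o1 o2 o3 o4 o5 ⊢
  have b6 : e6 < 14 := by omega
  have b1 : e1 < 22 := by omega
  have hrow := h e6 b6
  unfold chkRowP at hrow
  rw [allN_true] at hrow
  have hrow := hrow e1 b1
  rw [bif_true] at hrow
  have hpair : pairB e1 e6 = true := by
    unfold pairB
    rw [Bool.and_eq_true, Bool.and_eq_true, Bool.not_eq_true', ← Bool.not_eq_true,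
      Bool.and_eq_true, blt_true, blt_true, ble_true, ble_true]
    exact ⟨⟨by omega, by omega⟩, o5⟩
  have hrow := hrow.1 hpair
  rw [allN_true] at hrow
  have hrow := hrow e2 (by
    rcases Nat.eq_zero_or_pos e6 with k | k
    · rw [nbeq_true.mpr k]; change e2 < 8; omega
    · rw [nbeq_false.mpr k.ne']; change e2 < 3; omega)
  rw [allN_true] at hrow
  have hrow := hrow e4 (by
    rcases Nat.lt_or_ge 1 e1 with k | k
    · rw [ble_false.mpr k]; change e4 < 4; omega
    · rw [ble_true.mpr k]; change e4 < 10; omega)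
  rw [bif_true] at hrow
  have hom : omB e1 e2 e4 e6 = true := by
    unfold omB
    rw [Bool.and_eq_true, blt_true, blt_true]
    exact ⟨by omega, by omega⟩
  have hrow := hrow.1 hom
  rw [Bool.and_eq_true, Bool.and_eq_true, Bool.and_eq_true] at hrow
  obtain ⟨⟨⟨g1, g2⟩, g3⟩, g4⟩ := hrow
  have h3 : e3 = 0 ∨ e3 = 1 := by omega
  have h5 : e5 = 0 ∨ e5 = 1 := by omega
  rcases h3 with k | k <;> rcases h5 with k' | k' <;> rw [k, k']
  · exact g1
  · exact g2
  · exact g3
  · exact g4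

/-- the states -/
theorem inv_cod (T V T' V' : List ℕ) :
    Inv (fun e => (labK (cod T V) e, moOf (cod T V) e, labK (cod T' V') e,
      moOf (cod T' V') e)) := by
  have h := inv_ka (fun r : Mon => (decN (look T V r.e1 r.e2 r.e3 r.e4 r.e5 r.e6 / 8),
    look T V r.e1 r.e2 r.e3 r.e4 r.e5 r.e6 % 8,
    decN (look T' V' r.e1 r.e2 r.e3 r.e4 r.e5 r.e6 / 8),
    look T' V' r.e1 r.e2 r.e3 r.e4 r.e5 r.e6 % 8))
  have he : (fun e => (labK (cod T V) e, moOf (cod T V) e, labK (cod T' V') e,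
      moOf (cod T' V') e)) = fun e =>
      (fun r : Mon => (decN (look T V r.e1 r.e2 r.e3 r.e4 r.e5 r.e6 / 8),
        look T V r.e1 r.e2 r.e3 r.e4 r.e5 r.e6 % 8,
        decN (look T' V' r.e1 r.e2 r.e3 r.e4 r.e5 r.e6 / 8),
        look T' V' r.e1 r.e2 r.e3 r.e4 r.e5 r.e6 % 8)) (ka e) := by
    funext e
    show (decN (cod T V e.e1 e.e2 e.e3 e.e4 e.e5 e.e6 / 8),
      cod T V e.e1 e.e2 e.e3 e.e4 e.e5 e.e6 % 8,
      decN (cod T' V' e.e1 e.e2 e.e3 e.e4 e.e5 e.e6 / 8),
      cod T' V' e.e1 e.e2 e.e3 e.e4 e.e5 e.e6 % 8) = _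
    rw [cod_eq, cod_eq]
  rw [he]
  exact h

/-- `L(6,n)` is a symmetric chain order: `T0, V0` is the rule of the monomials of degree `n`,
`T1, V1` the rule of all smaller degrees. -/
theorem sco_of_rows (T0 V0 T1 V1 : List ℕ)
    (h0 : ∀ e6 < 14, chkRowP (cod T1 V1) (cod T0 V0) true 22 e6 = true)
    (h1 : ∀ e6 < 14, chkRowP (cod T1 V1) (cod T1 V1) false 22 e6 = true) (n : ℕ) :
    SCO 6 n := by
  refine sco_of_goodM _ _
    (goodM_of_loc (fun s => if s = 0 then labK (cod T0 V0) else labK (cod T1 V1))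
      (fun s => if s = 0 then moOf (cod T0 V0) else moOf (cod T1 V1)) ?_) n
  intro s e he
  rw [if_neg (Nat.succ_ne_zero s), if_neg (Nat.succ_ne_zero s)]
  rcases Nat.eq_zero_or_pos s with hs | hs
  · rw [if_pos hs, if_pos hs]
    have h1 := (all_of_windowP _ _ _ _ _ (inv_cod T1 V1 T0 V0) (rows_soundP _ _ _ h0) e he).1
    have h2 : (true = true) = (s = 0) := by simp [hs]
    rw [h2] at h1
    exact h1
  · rw [if_neg hs.ne', if_neg hs.ne']
    have h1 := (all_of_windowP _ _ _ _ _ (inv_cod T1 V1 T1 V1) (rows_soundP _ _ _ h1) e he).1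
    have h2 : (false = true) = (s = 0) := by
      simp only [Bool.false_eq_true, eq_iff_iff, false_iff]
      exact hs.ne'
    rw [h2] at h1
    exact h1

end Pool.L6
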