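import Pool.Agent.Helper43.L6.Zones
import Pool.Agent.Helper43.LS.Chk

/-!
# Project L6: the checker

The label of a code `k` is `decN (k / 8)`, its move is `k % 8`. Labels: `A l` (`l < 32`),
`L (l - 32)` (`l < 48`), `B (l - 48)` (`l < 56`), `C (l - 56)`.
-/

set_option autoImplicit false

namespace Pool.L6

open Pool.LS (LLab allN getRow)

/-- look up in the tables: `T` (`e4 < 4`) and `V` (`e4 ≥ 4`, `e1 ≤ 1`); one row for each `e6` -/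
def look (T V : List ℕ) (e1 e2 e3 e4 e5 e6 : ℕ) : ℕ :=
  bif Nat.blt e4 4 then
    (getRow T e6 >>> (9 * ((((e1 * (bif Nat.beq e6 0 then 7 else 3) + e2) * 4 + e4) * 2 + e3) * 2
      + e5))) % 512
  else (getRow V e6 >>> (9 * ((((e1 * 7 + e2) * 5 + (e4 - 4)) * 2 + e3) * 2 + e5))) % 512

/-- the code of the canonical representative -/
def cod (T V : List ℕ) (e1 e2 e3 e4 e5 e6 : ℕ) : ℕ :=
  (fun c d t =>
    (fun a b =>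
      bif Nat.ble ((3 * b - c) + d + 12) (2 * a) then
        look T V (a - 2 * ((2 * a - d - (3 * b - c) - 8) / 4)) c e3 d e5 b
      else bif Nat.ble ((2 * a - d) + c + 9) (3 * b) then
        look T V a c e3 d e5 (b - (3 * b - c - (2 * a - d) - 6) / 3)
      else look T V a c e3 d e5 b)
    (e1 - 3 * t) (e6 - 2 * t))
  (min e2 6) (min e4 8) (min ((e1 - 9) / 3) ((e6 - 6) / 2))

/-! ### The local check for abstract code functions -/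

/-- the label with number `l` -/
def decN (l : ℕ) : LLab :=
  bif Nat.blt l 32 then .A l else bif Nat.blt l 48 then .L (l - 32)
  else bif Nat.blt l 56 then .B (l - 48) else .C (l - 56)

/-- the label given by the code function -/
def labK (C : ℕ → ℕ → ℕ → ℕ → ℕ → ℕ → ℕ) (e : Mon) : LLab :=
  decN (C e.e1 e.e2 e.e3 e.e4 e.e5 e.e6 / 8)

/-- the move given by the code function -/
def moOf (C : ℕ → ℕ → ℕ → ℕ → ℕ → ℕ → ℕ) (e : Mon) : ℕ := C e.e1 e.e2 e.e3 e.e4 e.e5 e.e6 % 8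

/-- reduced -/
def redB (e1 e2 e3 e4 e5 e6 : ℕ) : Bool :=
  Nat.ble e3 1 && Nat.ble e5 1 && (Nat.ble e1 1 || Nat.ble e4 3) && (Nat.ble e2 2 || Nat.ble e6 0)

/-- `isTopA` -/
def topAB (l e1 e2 e3 e4 e5 e6 : ℕ) : Bool :=
  bif Nat.blt l 32 then Nat.beq (e4 + 2 * e5 + 3 * e6) (2 * e1 + e2 + l)
  else Nat.blt l 48 &&
    Nat.beq (e4 + 2 * e5 + 3 * e6 + (l - 32)) (3 * e1 + 2 * e2 + e3 + e4 + e5 + e6 + 1)

/-- `isBotA` -/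
def botAB (l e1 e2 e3 e4 e5 e6 : ℕ) : Bool :=
  bif Nat.blt l 32 then Nat.beq (e4 + 2 * e5 + 3 * e6 + l) (2 * e1 + e2)
  else Nat.blt l 48 &&
    Nat.beq (e1 + e2 + e3 + 2 * e4 + 3 * e5 + 4 * e6 + 1) (2 * e1 + e2 + (l - 32))

/-- `rangeN` -/
def rangeNB (l e1 e2 e3 e4 e5 e6 : ℕ) : Bool :=
  bif Nat.blt l 32 then true
  else bif Nat.blt l 48 then
    Nat.ble (2 * e1 + e2 + (l - 32)) (e1 + e2 + e3 + 2 * e4 + 3 * e5 + 4 * e6 + 1) &&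
      Nat.ble (e4 + 2 * e5 + 3 * e6 + (l - 32)) (3 * e1 + 2 * e2 + e3 + e4 + e5 + e6 + 2)
  else Nat.blt l 64

/-- `OffN` with `j = k - 48` -/
def offB (l k e1 e2 e3 e4 e5 e6 : ℕ) : Bool :=
  bif Nat.blt l 32 then
    Nat.beq (e4 + 2 * e5 + 3 * e6 + 1) (2 * e1 + e2 + l + (k - 48))
  else bif Nat.blt l 48 then
    Nat.beq (e4 + 2 * e5 + 3 * e6 + (l - 32)) (3 * e1 + 2 * e2 + e3 + e4 + e5 + e6 + (k - 48))
  else Nat.blt l 56 && Nat.beq l (k + 5)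

/-- the step with the move `m` -/
def stepB (C : ℕ → ℕ → ℕ → ℕ → ℕ → ℕ → ℕ) (l m e1 e2 e3 e4 e5 e6 : ℕ) : Bool :=
  bif Nat.beq m 1 then
    Nat.ble 1 e1 && redB (e1 - 1) (e2 + 1) e3 e4 e5 e6 &&
      Nat.beq (C (e1 - 1) (e2 + 1) e3 e4 e5 e6 / 8) (bif Nat.blt l 48 then l else l + 1)
  else bif Nat.beq m 2 then
    Nat.ble 1 e2 && redB e1 (e2 - 1) (e3 + 1) e4 e5 e6 &&
      Nat.beq (C e1 (e2 - 1) (e3 + 1) e4 e5 e6 / 8) (bif Nat.blt l 48 then l else l + 1)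
  else bif Nat.beq m 3 then
    Nat.ble 1 e3 && redB e1 e2 (e3 - 1) (e4 + 1) e5 e6 &&
      Nat.beq (C e1 e2 (e3 - 1) (e4 + 1) e5 e6 / 8) (bif Nat.blt l 48 then l else l + 1)
  else bif Nat.beq m 4 then
    Nat.ble 1 e4 && redB e1 e2 e3 (e4 - 1) (e5 + 1) e6 &&
      Nat.beq (C e1 e2 e3 (e4 - 1) (e5 + 1) e6 / 8) (bif Nat.blt l 48 then l else l + 1)
  else Nat.beq m 5 &&
    Nat.ble 1 e5 && redB e1 e2 e3 e4 (e5 - 1) (e6 + 1) &&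
      Nat.beq (C e1 e2 e3 e4 (e5 - 1) (e6 + 1) / 8) (bif Nat.blt l 48 then l else l + 1)

/-- the predecessors -/
def p1B (C : ℕ → ℕ → ℕ → ℕ → ℕ → ℕ → ℕ) (e1 e2 e3 e4 e5 e6 : ℕ) : Bool :=
  Nat.ble 1 e2 && redB (e1 + 1) (e2 - 1) e3 e4 e5 e6 &&
    Nat.beq (C (e1 + 1) (e2 - 1) e3 e4 e5 e6 % 8) 1
/-- the predecessors -/
def p2B (C : ℕ → ℕ → ℕ → ℕ → ℕ → ℕ → ℕ) (e1 e2 e3 e4 e5 e6 : ℕ) : Bool :=
  Nat.ble 1 e3 && redB e1 (e2 + 1) (e3 - 1) e4 e5 e6 &&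
    Nat.beq (C e1 (e2 + 1) (e3 - 1) e4 e5 e6 % 8) 2
/-- the predecessors -/
def p3B (C : ℕ → ℕ → ℕ → ℕ → ℕ → ℕ → ℕ) (e1 e2 e3 e4 e5 e6 : ℕ) : Bool :=
  Nat.ble 1 e4 && redB e1 e2 (e3 + 1) (e4 - 1) e5 e6 &&
    Nat.beq (C e1 e2 (e3 + 1) (e4 - 1) e5 e6 % 8) 3
/-- the predecessors -/
def p4B (C : ℕ → ℕ → ℕ → ℕ → ℕ → ℕ → ℕ) (e1 e2 e3 e4 e5 e6 : ℕ) : Bool :=
  Nat.ble 1 e5 && redB e1 e2 e3 (e4 + 1) (e5 - 1) e6 &&
    Nat.beq (C e1 e2 e3 (e4 + 1) (e5 - 1) e6 % 8) 4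
/-- the predecessors -/
def p5B (C : ℕ → ℕ → ℕ → ℕ → ℕ → ℕ → ℕ) (e1 e2 e3 e4 e5 e6 : ℕ) : Bool :=
  Nat.ble 1 e6 && redB e1 e2 e3 e4 (e5 + 1) (e6 - 1) &&
    Nat.beq (C e1 e2 e3 e4 (e5 + 1) (e6 - 1) % 8) 5

/-- exactly one -/
def one5 (a b c d e : Bool) : Bool :=
  bif a then !b && !c && !d && !e else bif b then !c && !d && !e else bif c then !d && !e
  else bif d then !e else e

/-- `e` is a beginning of a chain `B` -/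
def stB (C : ℕ → ℕ → ℕ → ℕ → ℕ → ℕ → ℕ) (e1 e2 e3 e4 e5 e6 : ℕ) : Bool :=
  Nat.ble 1 e1 && Nat.beq (C (e1 - 1) e2 e3 e4 e5 e6 % 8) 0 &&
    !Nat.beq (C (e1 - 1) e2 e3 e4 e5 e6 / 8) 63

/-- exactly one predecessor, or none if `b` -/
def predsB (C : ℕ → ℕ → ℕ → ℕ → ℕ → ℕ → ℕ) (b : Bool) (e1 e2 e3 e4 e5 e6 : ℕ) : Bool :=
  bif b then
    !p1B C e1 e2 e3 e4 e5 e6 && !p2B C e1 e2 e3 e4 e5 e6 && !p3B C e1 e2 e3 e4 e5 e6 &&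
      !p4B C e1 e2 e3 e4 e5 e6 && !p5B C e1 e2 e3 e4 e5 e6
  else one5 (p1B C e1 e2 e3 e4 e5 e6) (p2B C e1 e2 e3 e4 e5 e6) (p3B C e1 e2 e3 e4 e5 e6)
    (p4B C e1 e2 e3 e4 e5 e6) (p5B C e1 e2 e3 e4 e5 e6)

/-- the bottoms -/
def botsB (C : ℕ → ℕ → ℕ → ℕ → ℕ → ℕ → ℕ) (l e1 e2 e3 e4 e5 e6 : ℕ) : Bool :=
  (bif botAB l e1 e2 e3 e4 e5 e6 || Nat.beq l 56 then
    Nat.beq e5 0 && redB e1 e2 e3 (e4 + 1) (e5 + 1) e6 &&
      Nat.beq (C e1 e2 e3 (e4 + 1) (e5 + 1) e6 / 8) 63 else true) &&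
  (bif Nat.beq l 63 then
    Nat.ble 1 e4 && Nat.ble 1 e5 &&
      (botAB (C e1 e2 e3 (e4 - 1) (e5 - 1) e6 / 8) e1 e2 e3 (e4 - 1) (e5 - 1) e6 ||
        Nat.beq (C e1 e2 e3 (e4 - 1) (e5 - 1) e6 / 8) 56) else true)

/-- the zones -/
def zonesB (l e1 e2 e3 e4 e5 e6 : ℕ) : Bool :=
  (bif Nat.ble ((3 * e6 - e2) + e4 + 8) (2 * e1) then Nat.ble 56 l else true) &&
  (bif Nat.ble ((2 * e1 - e4) + e2 + 6) (3 * e6) then Nat.ble 48 l && Nat.ble l 55 else true) &&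
  (bif Nat.ble 6 e2 && Nat.beq e6 0 then
    Nat.ble 56 l || (Nat.ble 32 l && Nat.blt l 48 &&
      Nat.blt (e4 + 2 * e5 + 3 * e6 + (l - 32)) (3 * e1 + 2 * e2 + e3 + e4 + e5 + e6))
    else true) &&
  (bif Nat.ble 8 e4 && Nat.ble e1 1 then
    (Nat.ble 48 l && Nat.ble l 55) ||
      (Nat.ble 32 l && Nat.blt l 48 && !botAB l e1 e2 e3 e4 e5 e6) else true) &&
  (bif Nat.ble 9 e1 && Nat.ble 6 e6 then !(Nat.ble 32 l && Nat.blt l 48) else true)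

/-- the local check of the rule `D` after the rule `C`; `lU`, `mU` label and move of `C`,
`l`, `m` label and move of `D` -/
def chkP (C D : ℕ → ℕ → ℕ → ℕ → ℕ → ℕ → ℕ) (ex : Bool) (lU mU l m e1 e2 e3 e4 e5 e6 : ℕ) :
    Bool :=
  rangeNB lU e1 e2 e3 e4 e5 e6 && rangeNB l e1 e2 e3 e4 e5 e6 &&
  (bif Nat.beq mU 0 then
    Nat.beq lU 63 ||
      (redB (e1 + 1) e2 e3 e4 e5 e6 &&
        (fun k => Nat.ble 48 k && Nat.ble k 50 &&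
          offB lU k e1 e2 e3 e4 e5 e6) (D (e1 + 1) e2 e3 e4 e5 e6 / 8))
  else true) &&
  (bif Nat.beq m 0 then
    !ex || topAB l e1 e2 e3 e4 e5 e6 || Nat.beq l 54 || Nat.beq l 63
  else !Nat.beq l 55 && !Nat.beq l 63 && stepB D l m e1 e2 e3 e4 e5 e6) &&
  predsB D (botAB l e1 e2 e3 e4 e5 e6 || Nat.beq l 56 || stB C e1 e2 e3 e4 e5 e6)
    e1 e2 e3 e4 e5 e6 &&
  botsB D l e1 e2 e3 e4 e5 e6 &&
  zonesB lU e1 e2 e3 e4 e5 e6 && zonesB l e1 e2 e3 e4 e5 e6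

/-- the local check -/
def chkQ (C D : ℕ → ℕ → ℕ → ℕ → ℕ → ℕ → ℕ) (ex : Bool) (e1 e2 e3 e4 e5 e6 : ℕ) : Bool :=
  chkP C D ex (C e1 e2 e3 e4 e5 e6 / 8) (C e1 e2 e3 e4 e5 e6 % 8)
    (D e1 e2 e3 e4 e5 e6 / 8) (D e1 e2 e3 e4 e5 e6 % 8) e1 e2 e3 e4 e5 e6

/-- the pairs `(e1, e6)` that occur in the window -/
def pairB (e1 e6 : ℕ) : Bool :=
  Nat.blt (2 * e1) (3 * e6 + 20) && Nat.blt (3 * e6) (2 * e1 + 16) &&
    !(Nat.ble 13 e1 && Nat.ble 9 e6)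

/-- the last conditions of the window -/
def omB (e1 e2 e4 e6 : ℕ) : Bool :=
  Nat.blt (2 * e1) ((3 * e6 + 3 - e2) + e4 + 14) && Nat.blt (3 * e6) ((2 * e1 + 2 - e4) + e2 + 12)

/-- the check of the window for a given `e6` -/
def chkRowP (C D : ℕ → ℕ → ℕ → ℕ → ℕ → ℕ → ℕ) (ex : Bool) (n e6 : ℕ) : Bool :=
  allN n fun e1 => bif pairB e1 e6 then
    allN (bif Nat.beq e6 0 then 8 else 3) fun e2 =>
      allN (bif Nat.ble e1 1 then 10 else 4) fun e4 =>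
        bif omB e1 e2 e4 e6 then
          chkQ C D ex e1 e2 0 e4 0 e6 && chkQ C D ex e1 e2 0 e4 1 e6 &&
            chkQ C D ex e1 e2 1 e4 0 e6 && chkQ C D ex e1 e2 1 e4 1 e6 else true
    else true

end Pool.L6
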