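import Pool.Agent.Helper43.LS.Defs
import Pool.Agent.Helper16.LS.Next

/-!
# Project L6: symmetric chain decompositions of `L(6,n)`

Definitions. A monomial `x₀^e₀ x₁^e₁ ⋯ x₆^e₆` of degree `n` is the partition with `e_i` parts `i`.
-/

set_option autoImplicit false

namespace Pool.L6

/-- The exponents of `x₁, …, x₆`. -/
structure Mon where
  e1 : ℕ
  e2 : ℕ
  e3 : ℕ
  e4 : ℕ
  e5 : ℕ
  e6 : ℕ
deriving DecidableEq

/-- The reduced monomials: `x₃` and `x₅` occur at most once, and the monomial is divisible neither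
by `x₁² x₄⁴` nor by `x₂³ x₆`. -/
def Red (e : Mon) : Prop :=
  e.e3 ≤ 1 ∧ e.e5 ≤ 1 ∧ (e.e1 < 2 ∨ e.e4 < 4) ∧ (e.e2 < 3 ∨ e.e6 < 1)

/-- The rank minus three times the degree. -/
def hz (e : Mon) : ℤ := -2 * (e.e1 : ℤ) - e.e2 + e.e4 + 2 * e.e5 + 3 * e.e6

/-- `f` is obtained from `e` by replacing a factor `x_k` by `x_{k+1}`, where `1 ≤ k ≤ 5`. -/
def Mv (k : ℕ) (e f : Mon) : Prop :=
  (k = 1 ∧ e.e1 = f.e1 + 1 ∧ f.e2 = e.e2 + 1 ∧ f.e3 = e.e3 ∧ f.e4 = e.e4 ∧ f.e5 = e.e5 ∧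
    f.e6 = e.e6) ∨
  (k = 2 ∧ f.e1 = e.e1 ∧ e.e2 = f.e2 + 1 ∧ f.e3 = e.e3 + 1 ∧ f.e4 = e.e4 ∧ f.e5 = e.e5 ∧
    f.e6 = e.e6) ∨
  (k = 3 ∧ f.e1 = e.e1 ∧ f.e2 = e.e2 ∧ e.e3 = f.e3 + 1 ∧ f.e4 = e.e4 + 1 ∧ f.e5 = e.e5 ∧
    f.e6 = e.e6) ∨
  (k = 4 ∧ f.e1 = e.e1 ∧ f.e2 = e.e2 ∧ f.e3 = e.e3 ∧ e.e4 = f.e4 + 1 ∧ f.e5 = e.e5 + 1 ∧
    f.e6 = e.e6) ∨
  (k = 5 ∧ f.e1 = e.e1 ∧ f.e2 = e.e2 ∧ f.e3 = e.e3 ∧ f.e4 = e.e4 ∧ e.e5 = f.e5 + 1 ∧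
    f.e6 = e.e6 + 1)

/-- `x₁ e`. -/
def x1 (e : Mon) : Mon := { e with e1 := e.e1 + 1 }

/-- `x₄ x₅ e`. -/
def x45 (e : Mon) : Mon := { e with e4 := e.e4 + 1, e5 := e.e5 + 1 }

/-- The labels. The label `B q` means `q = rank (first element of the chain) + rank - 6 degree`
up to normalisation: the end of an exact chain has the label `B 0`. The label `A o` means that the
first element of the chain has `hz = -o`. -/
inductive Lb where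
  | A (o : ℕ)
  | B (q : ℤ)
  | C (j : ℕ)
deriving DecidableEq

/-- The label of the next element of a chain. -/
def Lb.next : Lb → Lb
  | .A o => .A o
  | .B q => .B (q + 1)
  | .C j => .C (j + 1)

/-- `e` is the bottom of its chain. -/
def Bt (lab : Mon → Lb) (e : Mon) : Prop :=
  lab e = .C 0 ∨ ∃ o : ℕ, lab e = .A o ∧ hz e = -o

/-- `e` is the end of an exact chain. -/
def TpC (lab : Mon → Lb) (e : Mon) : Prop :=
  lab e = .B 0 ∨ ∃ o : ℕ, lab e = .A o ∧ hz e = o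

/-- `e` is a top. -/
def TpB (lab : Mon → Lb) (mo : Mon → ℕ) (e : Mon) : Prop := mo e = 0 ∧ lab e ≠ .C 7

/-- The top `e` with the label `l` has the offset `d`. -/
def Off (l : Lb) (e : Mon) (d : ℤ) : Prop :=
  l = .B d ∨ ∃ o : ℕ, l = .A o ∧ hz e = o + d

/-- `f` is the beginning of a chain `B`. -/
def St (lab : Mon → Lb) (mo : Mon → ℕ) (f : Mon) : Prop :=
  ∃ t, f = x1 t ∧ Red t ∧ TpB lab mo t

/-- A family of rules. -/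
structure GoodM (lab : ℕ → Mon → Lb) (mo : ℕ → Mon → ℕ) : Prop where
  step : ∀ s e, Red e → mo s e ≠ 0 →
    ∃ f, Red f ∧ Mv (mo s e) e f ∧ lab s f = (lab s e).next
  endC : ∀ s e, Red e → lab s e = .C 7 → mo s e = 0
  exact : ∀ e, Red e → mo 0 e = 0 → TpC (lab 0) e ∨ lab 0 e = .C 7
  inj : ∀ s e e' f, Red e → Red e' → Red f → mo s e ≠ 0 → mo s e' ≠ 0 →
    Mv (mo s e) e f → Mv (mo s e') e' f → e = e'
  start : ∀ s f, Red f →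
    ((∃ e, Red e ∧ mo s e ≠ 0 ∧ Mv (mo s e) e f) ↔
      ¬ (Bt (lab s) f ∨ St (lab (s + 1)) (mo (s + 1)) f))
  top : ∀ s t, Red t → TpB (lab (s + 1)) (mo (s + 1)) t → Red (x1 t) ∧
    ∃ d : ℤ, Off (lab (s + 1) t) t d ∧ lab s (x1 t) = .B (d - 5)
  bot : ∀ s u, Red u → Bt (lab s) u → u.e5 = 0 ∧ Red (x45 u) ∧ lab s (x45 u) = .C 7
  botOf : ∀ s e, Red e → lab s e = .C 7 → ∃ u, e = x45 u ∧ Bt (lab s) u

end Pool.L6
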