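import Pool.Agent.Helper43.L6.Reduce
import Pool.Agent.Helper43.LS.Per

/-!
# Project L6: local conditions

Labels: `A o`; `L c` is the label `A (degree + 1 - c)`; `B j` stands for `q = j - 6` (so an exact
chain ends with `B 6`); `C j`.
-/

set_option autoImplicit false

namespace Pool.L6

open Pool.LS (LLab)

/-- the positive part of `hz` -/
def up (e : Mon) : ℕ := e.e4 + 2 * e.e5 + 3 * e.e6

/-- the negative part of `hz` -/
def dn (e : Mon) : ℕ := 2 * e.e1 + e.e2

/-- The end of a chain `A` or `L`. -/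
def isTopA (l : LLab) (e : Mon) : Prop :=
  match l with
  | .A o => up e = dn e + o
  | .L c => up e + c = dn e + deg e + 1
  | _ => False

/-- The beginning of a chain `A` or `L`. -/
def isBotA (l : LLab) (e : Mon) : Prop :=
  match l with
  | .A o => up e + o = dn e
  | .L c => up e + deg e + 1 = dn e + c
  | _ => False

/-- The result of the move `k`, if possible. -/
def mvF (k : ℕ) (e : Mon) : Option Mon :=
  match k with
  | 1 => if 1 ≤ e.e1 then some { e with e1 := e.e1 - 1, e2 := e.e2 + 1 } else none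
  | 2 => if 1 ≤ e.e2 then some { e with e2 := e.e2 - 1, e3 := e.e3 + 1 } else none
  | 3 => if 1 ≤ e.e3 then some { e with e3 := e.e3 - 1, e4 := e.e4 + 1 } else none
  | 4 => if 1 ≤ e.e4 then some { e with e4 := e.e4 - 1, e5 := e.e5 + 1 } else none
  | 5 => if 1 ≤ e.e5 then some { e with e5 := e.e5 - 1, e6 := e.e6 + 1 } else none
  | _ => none

/-- The inverse of the move `k`, if possible. -/
def mvB (k : ℕ) (e : Mon) : Option Mon :=
  match k with
  | 1 => if 1 ≤ e.e2 then some { e with e1 := e.e1 + 1, e2 := e.e2 - 1 } else none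
  | 2 => if 1 ≤ e.e3 then some { e with e2 := e.e2 + 1, e3 := e.e3 - 1 } else none
  | 3 => if 1 ≤ e.e4 then some { e with e3 := e.e3 + 1, e4 := e.e4 - 1 } else none
  | 4 => if 1 ≤ e.e5 then some { e with e4 := e.e4 + 1, e5 := e.e5 - 1 } else none
  | 5 => if 1 ≤ e.e6 then some { e with e5 := e.e5 + 1, e6 := e.e6 - 1 } else none
  | _ => none

/-- `e` has a predecessor through the move `k`. -/
def Pred (mo : Mon → ℕ) (k : ℕ) (e : Mon) : Prop :=
  ∃ g, mvB k e = some g ∧ Red g ∧ mo g = k

/-- `e` is a top. -/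
def IsTp (lab : Mon → LLab) (mo : Mon → ℕ) (e : Mon) : Prop := mo e = 0 ∧ lab e ≠ .C 7

/-- `e` is the beginning of a chain `B`. -/
def IsSt (lab : Mon → LLab) (mo : Mon → ℕ) (e : Mon) : Prop := ∃ t, e = x1 t ∧ IsTp lab mo t

/-- The top `e` with the label `l` has the offset `j - 1`. -/
def OffN (l : LLab) (e : Mon) (j : ℕ) : Prop :=
  match l with
  | .A o => up e + 1 = dn e + o + j
  | .L c => up e + c = dn e + deg e + j
  | .B k => k = j + 5
  | .C _ => False

/-- The bounds of the labels. -/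
def rangeN (l : LLab) (e : Mon) : Prop :=
  match l with
  | .A _ => True
  | .L c => dn e + c ≤ up e + deg e + 1 ∧ up e + c ≤ dn e + deg e + 2
  | .B j => j ≤ 7
  | .C j => j ≤ 7

/-- Conversion of the labels. -/
def toLb (lab : Mon → LLab) (e : Mon) : Lb :=
  match lab e with
  | .A o => .A o
  | .L c => .A (deg e + 1 - c)
  | .B j => .B ((j : ℤ) - 6)
  | .C j => .C j

/-- The local conditions of the rule `lab, mo` after the rule `labU, moU` at `e`; all the chains
end symmetrically if `ex`. -/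
structure LocP (labU : Mon → LLab) (moU : Mon → ℕ) (lab : Mon → LLab) (mo : Mon → ℕ) (ex : Prop)
    (e : Mon) : Prop where
  rangeU : rangeN (labU e) e
  range : rangeN (lab e) e
  step : mo e ≠ 0 → ∃ f, mvF (mo e) e = some f ∧ Red f ∧ lab f = (lab e).next ∧ lab e ≠ .C 7
  stop : ex → mo e = 0 → isTopA (lab e) e ∨ lab e = .B 6 ∨ lab e = .C 7
  pred : ¬ (isBotA (lab e) e ∨ lab e = .C 0 ∨ IsSt labU moU e) → ∃ k, Pred mo k e
  predU : ∀ k k', Pred mo k e → Pred mo k' e → k = k'
  start : (isBotA (lab e) e ∨ lab e = .C 0 ∨ IsSt labU moU e) → ∀ k, ¬ Pred mo k e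
  top : IsTp labU moU e → Red (x1 e) ∧
    ∃ j, j ≤ 2 ∧ OffN (labU e) e j ∧ lab (x1 e) = .B j
  bot : (isBotA (lab e) e ∨ lab e = .C 0) → e.e5 = 0 ∧ Red (x45 e) ∧ lab (x45 e) = .C 7
  botOf : lab e = .C 7 → ∃ u, e = x45 u ∧ (isBotA (lab u) u ∨ lab u = .C 0)

/-! ### From the local conditions to `GoodM` -/

theorem mv_of_mvF {k : ℕ} {e f : Mon} (h : mvF k e = some f) : Mv k e f := by
  unfold mvF at h
  split at h
  · split_ifs at h with h1
    simp only [Option.some.injEq] at h
    subst h
    exact Or.inl ⟨rfl, by dsimp only; omega, rfl, rfl, rfl, rfl, rfl⟩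
  · split_ifs at h with h1
    simp only [Option.some.injEq] at h
    subst h
    exact Or.inr (Or.inl ⟨rfl, rfl, by dsimp only; omega, rfl, rfl, rfl, rfl⟩)
  · split_ifs at h with h1
    simp only [Option.some.injEq] at h
    subst h
    exact Or.inr (Or.inr (Or.inl ⟨rfl, rfl, rfl, by dsimp only; omega, rfl, rfl, rfl⟩))
  · split_ifs at h with h1
    simp only [Option.some.injEq] at h
    subst h
    exact Or.inr (Or.inr (Or.inr (Or.inl ⟨rfl, rfl, rfl, rfl, by dsimp only; omega, rfl, rfl⟩)))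
  · split_ifs at h with h1
    simp only [Option.some.injEq] at h
    subst h
    exact Or.inr (Or.inr (Or.inr (Or.inr ⟨rfl, rfl, rfl, rfl, rfl, by dsimp only; omega, rfl⟩)))
  · simp at h

theorem mvB_of_mv {k : ℕ} {e f : Mon} (h : Mv k e f) : mvB k f = some e := by
  obtain ⟨a1, a2, a3, a4, a5, a6⟩ := e
  obtain ⟨b1, b2, b3, b4, b5, b6⟩ := f
  unfold Mv at h
  dsimp only at h
  rcases h with ⟨rfl, h1, h2, h3, h4, h5, h6⟩ | ⟨rfl, h1, h2, h3, h4, h5, h6⟩ |
    ⟨rfl, h1, h2, h3, h4, h5, h6⟩ | ⟨rfl, h1, h2, h3, h4, h5, h6⟩ |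
    ⟨rfl, h1, h2, h3, h4, h5, h6⟩
  all_goals
    simp only [mvB]
    rw [if_pos (by omega)]
    simp only [Option.some.injEq, Mon.mk.injEq]
    refine ⟨?_, ?_, ?_, ?_, ?_, ?_⟩ <;> omega

theorem mv_of_mvB {k : ℕ} {e f : Mon} (h : mvB k f = some e) : Mv k e f := by
  unfold mvB at h
  split at h
  · split_ifs at h with h1
    simp only [Option.some.injEq] at h
    subst h
    exact Or.inl ⟨rfl, rfl, by dsimp only; omega, rfl, rfl, rfl, rfl⟩
  · split_ifs at h with h1
    simp only [Option.some.injEq] at h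
    subst h
    exact Or.inr (Or.inl ⟨rfl, rfl, rfl, by dsimp only; omega, rfl, rfl, rfl⟩)
  · split_ifs at h with h1
    simp only [Option.some.injEq] at h
    subst h
    exact Or.inr (Or.inr (Or.inl ⟨rfl, rfl, rfl, rfl, by dsimp only; omega, rfl, rfl⟩))
  · split_ifs at h with h1
    simp only [Option.some.injEq] at h
    subst h
    exact Or.inr (Or.inr (Or.inr (Or.inl ⟨rfl, rfl, rfl, rfl, rfl, by dsimp only; omega, rfl⟩)))
  · split_ifs at h with h1
    simp only [Option.some.injEq] at h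
    subst h
    exact Or.inr (Or.inr (Or.inr (Or.inr ⟨rfl, rfl, rfl, rfl, rfl, rfl, by dsimp only; omega⟩)))
  · simp at h

theorem deg_mv {k : ℕ} {e f : Mon} (h : Mv k e f) : deg f = deg e := (Mv_deg h).1

theorem mv_ne_zero {k : ℕ} {e f : Mon} (h : Mv k e f) : k ≠ 0 := by
  unfold Mv at h
  omega

theorem hz_eq (e : Mon) : hz e = (up e : ℤ) - (dn e : ℤ) := by
  unfold hz up dn
  push_cast
  ring

theorem toC_iff {lab : Mon → LLab} {e : Mon} {j : ℕ} :
    toLb lab e = .C j ↔ lab e = .C j := by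
  unfold toLb
  cases hl : lab e <;> simp

/-- The bottoms. -/
theorem bt_iff {lab : Mon → LLab} {e : Mon} (hr : rangeN (lab e) e) :
    Bt (toLb lab) e ↔ (isBotA (lab e) e ∨ lab e = .C 0) := by
  have hd := hz_eq e
  unfold Bt toLb
  cases hl : lab e with
  | A o =>
    simp only [isBotA, Lb.A.injEq, reduceCtorEq, or_false, false_or]
    constructor
    · rintro ⟨o', h1, h2⟩
      subst h1
      omega
    · intro h1
      exact ⟨o, rfl, by omega⟩
  | L c =>
    rw [hl] at hr
    simp only [rangeN] at hr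
    obtain ⟨hr1, hr2⟩ := hr
    simp only [isBotA, Lb.A.injEq, reduceCtorEq, or_false, false_or]
    constructor
    · rintro ⟨o', h1, h2⟩
      subst h1
      omega
    · intro h1
      exact ⟨_, rfl, by omega⟩
  | B j =>
    simp only [isBotA, reduceCtorEq, false_and, exists_false, or_false]
  | C j =>
    simp only [isBotA, Lb.C.injEq, LLab.C.injEq, reduceCtorEq, false_and, exists_false,
      or_false, false_or]

/-- The tops of the caps. -/
theorem tpC_iff {lab : Mon → LLab} {e : Mon} (hr : rangeN (lab e) e) :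
    TpC (toLb lab) e ↔ (isTopA (lab e) e ∨ lab e = .B 6) := by
  have hd := hz_eq e
  unfold TpC toLb
  cases hl : lab e with
  | A o =>
    simp only [isTopA, Lb.A.injEq, reduceCtorEq, or_false, false_or]
    constructor
    · rintro ⟨o', h1, h2⟩
      subst h1
      omega
    · intro h1
      exact ⟨o, rfl, by omega⟩
  | L c =>
    rw [hl] at hr
    simp only [rangeN] at hr
    obtain ⟨hr1, hr2⟩ := hr
    simp only [isTopA, Lb.A.injEq, reduceCtorEq, or_false, false_or]
    constructor
    · rintro ⟨o', h1, h2⟩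
      subst h1
      omega
    · intro h1
      exact ⟨_, rfl, by omega⟩
  | B j =>
    simp only [isTopA, Lb.B.injEq, LLab.B.injEq, reduceCtorEq, false_and, exists_false,
      or_false, false_or]
    omega
  | C j =>
    simp only [isTopA, reduceCtorEq, false_and, exists_false, or_false]

theorem off_of {lab : Mon → LLab} {e : Mon} {j : ℕ} (hr : rangeN (lab e) e)
    (h : OffN (lab e) e j) : Off (toLb lab e) e ((j : ℤ) - 1) := by
  have hd := hz_eq e
  unfold Off toLb
  cases hl : lab e with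
  | A o =>
    rw [hl] at h
    simp only [OffN] at h
    exact Or.inr ⟨o, rfl, by omega⟩
  | L c =>
    rw [hl] at hr h
    simp only [rangeN] at hr
    simp only [OffN] at h
    exact Or.inr ⟨deg e + 1 - c, rfl, by omega⟩
  | B k =>
    rw [hl] at h
    simp only [OffN] at h
    left
    simp only [Lb.B.injEq]
    omega
  | C k =>
    rw [hl] at h
    exact absurd h (by simp [OffN])

theorem toLb_next {lab : Mon → LLab} {e f : Mon} (hd : deg f = deg e)
    (h : lab f = (lab e).next) : toLb lab f = (toLb lab e).next := by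
  unfold toLb
  rw [h, hd]
  cases hl : lab e <;> simp [LLab.next, Lb.next]
  omega

theorem pred_of_mv {mo : Mon → ℕ} {e f : Mon} (he : Red e) (h : Mv (mo e) e f) :
    Pred mo (mo e) f :=
  ⟨e, mvB_of_mv h, he, rfl⟩

theorem st_iff {lab : Mon → LLab} {mo : Mon → ℕ} {f : Mon} (hf : Red f) :
    St (toLb lab) mo f ↔ IsSt lab mo f := by
  unfold St IsSt TpB IsTp
  constructor
  · rintro ⟨t, h1, -, h2, h3⟩
    exact ⟨t, h1, h2, fun h => h3 (toC_iff.2 h)⟩
  · rintro ⟨t, h1, h2, h3⟩
    exact ⟨t, h1, red_of_x1 (h1 ▸ hf), h2, fun h => h3 (toC_iff.1 h)⟩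

theorem goodM_of_loc (lab : ℕ → Mon → LLab) (mo : ℕ → Mon → ℕ)
    (h : ∀ s e, Red e → LocP (lab (s + 1)) (mo (s + 1)) (lab s) (mo s) (s = 0) e) :
    GoodM (fun s => toLb (lab s)) mo where
  step := by
    intro s e he hm
    obtain ⟨f, hf, hR, hl, -⟩ := (h s e he).step hm
    have hM := mv_of_mvF hf
    exact ⟨f, hR, hM, toLb_next (deg_mv hM) hl⟩
  endC := by
    intro s e he hl
    simp only [toC_iff] at hl
    by_contra hm
    obtain ⟨f, -, -, -, h1⟩ := (h s e he).step hm
    exact h1 hl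
  exact := by
    intro e he hm
    have h1 := (h 0 e he).stop rfl hm
    rw [← or_assoc] at h1
    rcases h1 with h1 | h1
    · exact Or.inl ((tpC_iff (h 0 e he).range).2 h1)
    · exact Or.inr (toC_iff.2 h1)
  inj := by
    intro s e e' f he he' hf hm hm' hM hM'
    have hk := (h s f hf).predU _ _ (pred_of_mv he hM) (pred_of_mv he' hM')
    have h1 := mvB_of_mv hM
    have h2 := mvB_of_mv hM'
    rw [hk, h2] at h1
    simp only [Option.some.injEq] at h1
    exact h1.symm
  start := by
    intro s f hf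
    have hL := h s f hf
    rw [bt_iff hL.range, st_iff hf, or_assoc]
    constructor
    · rintro ⟨e, he, hm, hM⟩ hs
      exact hL.start hs _ (pred_of_mv he hM)
    · intro hs
      obtain ⟨k, g, hg, hR, hk⟩ := hL.pred hs
      have hM := mv_of_mvB hg
      refine ⟨g, hR, ?_, ?_⟩
      · rw [hk]
        exact mv_ne_zero hM
      · rw [hk]
        exact hM
  top := by
    intro s t ht hT
    have hL := h s t ht
    obtain ⟨h1, j, -, h3, h4⟩ := hL.top ⟨hT.1, fun hh => hT.2 (toC_iff.2 hh)⟩
    refine ⟨h1, (j : ℤ) - 1, off_of hL.rangeU h3, ?_⟩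
    show toLb (lab s) (x1 t) = _
    unfold toLb
    rw [h4]
    simp only [Lb.B.injEq]
    omega
  bot := by
    intro s u hu hB
    have hL := h s u hu
    simp only [bt_iff hL.range] at hB
    rw [toC_iff]
    exact hL.bot hB
  botOf := by
    intro s e he hl
    simp only [toC_iff] at hl
    obtain ⟨u, hu, hb⟩ := (h s e he).botOf hl
    have hur : Red u := red_of_x45 (hu ▸ he)
    exact ⟨u, hu, (bt_iff (h s u hur).range).2 hb⟩

end Pool.L6
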