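import Pool.Agent.Helper43.L6.Chk
import Pool.Agent.Helper43.L6.Data

/-!
# Project L6: kernel check of the rows of the pair 1 of rules
-/

set_option autoImplicit false

namespace Pool.L6

theorem r1_0 : chkRowP (cod T1 V1) (cod T1 V1) false 22 0 = true := by
  decide +kernel

theorem r1_1 : chkRowP (cod T1 V1) (cod T1 V1) false 22 1 = true := by
  decide +kernel

theorem r1_2 : chkRowP (cod T1 V1) (cod T1 V1) false 22 2 = true := by
  decide +kernel

theorem r1_3 : chkRowP (cod T1 V1) (cod T1 V1) false 22 3 = true := by
  decide +kernel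

theorem r1_4 : chkRowP (cod T1 V1) (cod T1 V1) false 22 4 = true := by
  decide +kernel

theorem r1_5 : chkRowP (cod T1 V1) (cod T1 V1) false 22 5 = true := by
  decide +kernel

theorem r1_6 : chkRowP (cod T1 V1) (cod T1 V1) false 22 6 = true := by
  decide +kernel

theorem r1_7 : chkRowP (cod T1 V1) (cod T1 V1) false 22 7 = true := by
  decide +kernel

theorem r1_8 : chkRowP (cod T1 V1) (cod T1 V1) false 22 8 = true := by
  decide +kernel

theorem r1_9 : chkRowP (cod T1 V1) (cod T1 V1) false 22 9 = true := by
  decide +kernel

theorem r1_10 : chkRowP (cod T1 V1) (cod T1 V1) false 22 10 = true := by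
  decide +kernel

theorem r1_11 : chkRowP (cod T1 V1) (cod T1 V1) false 22 11 = true := by
  decide +kernel

theorem r1_12 : chkRowP (cod T1 V1) (cod T1 V1) false 22 12 = true := by
  decide +kernel

theorem r1_13 : chkRowP (cod T1 V1) (cod T1 V1) false 22 13 = true := by
  decide +kernel

end Pool.L6
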