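import Pool.Agent.Helper43.L6.Assemble
import Pool.Agent.Helper43.L6.Row0
import Pool.Agent.Helper43.L6.Row1

/-!
# Project L6: `L(6,n)` is a symmetric chain order
-/

set_option autoImplicit false

namespace Pool.L6

open Pool.LS (SCO)

theorem rows0 : ∀ e6 < 14, chkRowP (cod T1 V1) (cod T0 V0) true 22 e6 = true := by
  intro e6 h
  interval_cases e6
  · exact r0_0
  · exact r0_1
  · exact r0_2
  · exact r0_3
  · exact r0_4
  · exact r0_5
  · exact r0_6
  · exact r0_7
  · exact r0_8
  · exact r0_9
  · exact r0_10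
  · exact r0_11
  · exact r0_12
  · exact r0_13

theorem rows1 : ∀ e6 < 14, chkRowP (cod T1 V1) (cod T1 V1) false 22 e6 = true := by
  intro e6 h
  interval_cases e6
  · exact r1_0
  · exact r1_1
  · exact r1_2
  · exact r1_3
  · exact r1_4
  · exact r1_5
  · exact r1_6
  · exact r1_7
  · exact r1_8
  · exact r1_9
  · exact r1_10
  · exact r1_11
  · exact r1_12
  · exact r1_13

/-- `L(6,n)` is a symmetric chain order. -/
theorem sco (n : ℕ) : SCO 6 n := sco_of_rows T0 V0 T1 V1 rows0 rows1 n

end Pool.L6
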