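import Pool.Agent.Helper43.L6.Window

/-!
# Project L6: extension of the local conditions from the window, part 2
-/

set_option autoImplicit false
set_option linter.unusedSimpArgs false

namespace Pool.L6

open Pool.LS (LLab)

theorem zok2 (l : Mon → LLab) (e0 : Mon) (h2 : 7 ≤ e0.e2) (hz0 : z2 e0)
    (hl : l (e0.add v2) = l e0) (hZ : ZoneOK l e0) (hR : rangeN (l e0) e0) :
    ZoneOK l (e0.add v2) := by
    refine ⟨?_, ?_, ?_, ?_, ?_⟩
    · intro hz
      rw [hl]
      apply hZ.okE
      simp only [zE, z2, Mon.add, v2] at *; omega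
    · intro hz
      rw [hl]
      apply hZ.okD
      simp only [zD, Mon.add, v2] at *; omega
    · intro hz
      rw [hl]
      rcases hZ.ok2 hz0 with h | ⟨c, hc, hn⟩
      · exact Or.inl h
      · refine Or.inr ⟨c, hc, ?_⟩
        simp only [up, dn, deg, Mon.add, v2] at *
        omega
    · intro hz
      rw [hl]
      have hz' : z4 e0 := by simp only [z4, Mon.add, v2] at *; omega
      rcases hZ.ok4 hz' with h | ⟨c, hc, hn⟩
      · exact Or.inl h
      · refine Or.inr ⟨c, hc, ?_⟩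
        simp only [isBotA, up, dn, deg, Mon.add, v2] at *
        omega
    · intro hz
      exfalso
      simp only [zS, z2, Mon.add, v2] at *; omega

theorem zok4 (l : Mon → LLab) (e0 : Mon) (h3 : 9 ≤ e0.e4) (hz0 : z4 e0)
    (hl : l (e0.add v4) = l e0) (hZ : ZoneOK l e0) (hR : rangeN (l e0) e0) :
    ZoneOK l (e0.add v4) := by
    refine ⟨?_, ?_, ?_, ?_, ?_⟩
    · intro hz
      exfalso
      simp only [zE, z4, Mon.add, v4] at *; omega
    · intro hz
      rw [hl]
      apply hZ.okD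
      simp only [zD, z4, Mon.add, v4] at *; omega
    · intro hz
      rw [hl]
      have hz' : z2 e0 := by simp only [z2, Mon.add, v4] at *; omega
      rcases hZ.ok2 hz' with h | ⟨c, hc, hn⟩
      · exact Or.inl h
      · refine Or.inr ⟨c, hc, ?_⟩
        simp only [up, dn, deg, Mon.add, v4] at *
        omega
    · intro hz
      rw [hl]
      rcases hZ.ok4 hz0 with h | ⟨c, hc, hn⟩
      · exact Or.inl h
      · refine Or.inr ⟨c, hc, ?_⟩
        rw [hc] at hR
        simp only [isBotA, rangeN, up, dn, deg, Mon.add, v4] at *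
        omega
    · intro hz
      exfalso
      simp only [zS, z4, Mon.add, v4] at *; omega

theorem zokE (l : Mon → LLab) (e0 : Mon)
    (h3 : (3 * e0.e6 + 3 - e0.e2) + e0.e4 + 10 ≤ 2 * e0.e1)
    (hz0 : zE e0)
    (hl : l (e0.add vE) = l e0) (hZ : ZoneOK l e0) :
    ZoneOK l (e0.add vE) := by
    obtain ⟨j, hj⟩ := hZ.okE hz0
    rw [hj] at hl
    refine ⟨fun _ => ⟨j, hl⟩, ?_, fun _ => Or.inl ⟨j, hl⟩, ?_, ?_⟩
    · intro hz
      exfalso
      simp only [zD, Mon.add, vE] at *; omega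
    · intro hz
      exfalso
      simp only [z4, Mon.add, vE] at *; omega
    · intro _ c hc
      rw [hl] at hc
      exact LLab.noConfusion hc

theorem zokD (l : Mon → LLab) (e0 : Mon)
    (h3 : (2 * e0.e1 + 2 - e0.e4) + e0.e2 + 9 ≤ 3 * e0.e6)
    (hz0 : zD e0)
    (hl : l (e0.add vD) = l e0) (hZ : ZoneOK l e0) :
    ZoneOK l (e0.add vD) := by
    obtain ⟨j, hj⟩ := hZ.okD hz0
    rw [hj] at hl
    refine ⟨?_, fun _ => ⟨j, hl⟩, ?_, fun _ => Or.inl ⟨j, hl⟩, ?_⟩
    · intro hz
      exfalso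
      simp only [zE, Mon.add, vD] at *; omega
    · intro hz
      exfalso
      simp only [z2, Mon.add, vD] at *; omega
    · intro _ c hc
      rw [hl] at hc
      exact LLab.noConfusion hc

theorem zokS (l : Mon → LLab) (e0 : Mon) (h1 : 10 ≤ e0.e1) (h5 : 7 ≤ e0.e6)
    (hr0 : Red e0) (hz0 : zS e0)
    (hl : l (e0.add vS) = l e0) (hZ : ZoneOK l e0) :
    ZoneOK l (e0.add vS) := by
    refine ⟨?_, ?_, ?_, ?_, ?_⟩
    · intro hz
      rw [hl]
      apply hZ.okE
      simp only [Red, zE, Mon.add, vS] at *; omega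
    · intro hz
      rw [hl]
      apply hZ.okD
      simp only [Red, zD, Mon.add, vS] at *; omega
    · intro hz
      exfalso
      simp only [z2, Mon.add, vS] at *; omega
    · intro hz
      exfalso
      simp only [z4, Mon.add, vS] at *; omega
    · intro _ c
      rw [hl]
      exact hZ.okS hz0 c

variable {labU : Mon → LLab} {moU : Mon → ℕ} {lab : Mon → LLab} {mo : Mon → ℕ} {ex : Prop}

theorem case2 (hi : Inv (fun e => (labU e, moU e, lab e, mo e))) (e0 : Mon) (h2 : 7 ≤ e0.e2)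
    (hr : Red (e0.add v2))
    (ih : ∀ f, deg f < deg (e0.add v2) → Red f → AllP labU moU lab mo ex f) :
    AllP labU moU lab mo ex (e0.add v2) := by
  have hr0 : Red e0 := by simp only [Red, Mon.add, v2] at *; omega
  have h6 : e0.e6 = 0 := by simp only [Red, Mon.add, v2] at *; omega
  have hst : ∀ f, Red f → z2 f → labU (f.add v2) = labU f ∧ moU (f.add v2) = moU f ∧
      lab (f.add v2) = lab f ∧ mo (f.add v2) = mo f := by
    intro f a b
    have := hi.inv2 f a b
    simp only [Prod.mk.injEq] at this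
    exact this
  have hz0 : z2 e0 := ⟨by omega, h6⟩
  obtain ⟨hL, hZ, hZC⟩ := ih e0 (by simp only [deg, Mon.add, v2]; omega) hr0
  constructor
  · refine loc_zoneP labU moU lab mo ex v2 e0 z2 hr0 rfl rfl (by decide) hst
      (fun l f _ a b c => lev2 l f a b c)
      ?_ ?_ (Or.inl rfl) (Or.inr (by omega)) (Or.inl rfl) (Or.inl rfl) ih
    · intro f hf
      rcases near_off hf with h | (h | h | h | h | h) | (h | h | h | h | h) | h | h | h | h <;>
      simp only [Offs] at h <;>
      simp only [Red, Mon.add, v2] <;> omega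
    · intro f hf hrf
      rcases near_off hf with h | (h | h | h | h | h) | (h | h | h | h | h) | h | h | h | h <;>
      simp only [Offs] at h <;>
      simp only [Red, z2] at * <;> omega
  · exact ⟨zok2 labU e0 h2 hz0 (hst e0 hr0 hz0).1 hZ hL.rangeU,
      zok2 lab e0 h2 hz0 (hst e0 hr0 hz0).2.2.1 hZC hL.range⟩

theorem case4 (hi : Inv (fun e => (labU e, moU e, lab e, mo e))) (e0 : Mon) (h3 : 9 ≤ e0.e4)
    (hr : Red (e0.add v4))
    (ih : ∀ f, deg f < deg (e0.add v4) → Red f → AllP labU moU lab mo ex f) :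
    AllP labU moU lab mo ex (e0.add v4) := by
  have hr0 : Red e0 := by simp only [Red, Mon.add, v4] at *; omega
  have h1 : e0.e1 ≤ 1 := by simp only [Red, Mon.add, v4] at *; omega
  have hst : ∀ f, Red f → z4 f → labU (f.add v4) = labU f ∧ moU (f.add v4) = moU f ∧
      lab (f.add v4) = lab f ∧ mo (f.add v4) = mo f := by
    intro f a b
    have := hi.inv4 f a b
    simp only [Prod.mk.injEq] at this
    exact this
  have hz0 : z4 e0 := ⟨by omega, h1⟩
  obtain ⟨hL, hZ, hZC⟩ := ih e0 (by simp only [deg, Mon.add, v4]; omega) hr0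
  constructor
  · refine loc_zoneP labU moU lab mo ex v4 e0 z4 hr0 rfl rfl (by decide) hst
      (fun l f _ a b c => lev4 l f a b c)
      ?_ ?_ (Or.inl rfl) (Or.inl rfl) (Or.inr (by omega)) (Or.inl rfl) ih
    · intro f hf
      rcases near_off hf with h | (h | h | h | h | h) | (h | h | h | h | h) | h | h | h | h <;>
      simp only [Offs] at h <;>
      simp only [Red, Mon.add, v4] <;> omega
    · intro f hf hrf
      rcases near_off hf with h | (h | h | h | h | h) | (h | h | h | h | h) | h | h | h | h <;>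
      simp only [Offs] at h <;>
      simp only [Red, z4] at * <;> omega
  · exact ⟨zok4 labU e0 h3 hz0 (hst e0 hr0 hz0).1 hZ hL.rangeU,
      zok4 lab e0 h3 hz0 (hst e0 hr0 hz0).2.2.1 hZC hL.range⟩

theorem caseE (hi : Inv (fun e => (labU e, moU e, lab e, mo e))) (e0 : Mon)
    (h3 : (3 * e0.e6 + 3 - e0.e2) + e0.e4 + 10 ≤ 2 * e0.e1)
    (hr : Red (e0.add vE))
    (ih : ∀ f, deg f < deg (e0.add vE) → Red f → AllP labU moU lab mo ex f) :
    AllP labU moU lab mo ex (e0.add vE) := by
  have hr0 : Red e0 := by simp only [Red, Mon.add, vE] at *; omega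
  have hst : ∀ f, Red f → zE f → labU (f.add vE) = labU f ∧ moU (f.add vE) = moU f ∧
      lab (f.add vE) = lab f ∧ mo (f.add vE) = mo f := by
    intro f a b
    have := hi.invE f a b
    simp only [Prod.mk.injEq] at this
    exact this
  have hz0 : zE e0 := by simp only [zE]; omega
  obtain ⟨hL, hZ, hZC⟩ := ih e0 (by simp only [deg, Mon.add, vE]; omega) hr0
  constructor
  · refine loc_zoneP labU moU lab mo ex vE e0 zE hr0 rfl rfl (by decide) hst
      (fun l f _ a b c => levE l f a b c)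
      ?_ ?_ (Or.inr (by omega)) (Or.inl rfl) (Or.inl rfl) (Or.inl rfl) ih
    · intro f hf
      rcases near_off hf with h | (h | h | h | h | h) | (h | h | h | h | h) | h | h | h | h <;>
      simp only [Offs] at h <;>
      simp only [Red, Mon.add, vE] <;> omega
    · intro f hf hrf
      rcases near_off hf with h | (h | h | h | h | h) | (h | h | h | h | h) | h | h | h | h <;>
      simp only [Offs] at h <;>
      simp only [Red, zE] at * <;> omega
  · exact ⟨zokE labU e0 h3 hz0 (hst e0 hr0 hz0).1 hZ,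
      zokE lab e0 h3 hz0 (hst e0 hr0 hz0).2.2.1 hZC⟩

theorem caseD (hi : Inv (fun e => (labU e, moU e, lab e, mo e))) (e0 : Mon)
    (h3 : (2 * e0.e1 + 2 - e0.e4) + e0.e2 + 9 ≤ 3 * e0.e6)
    (hr : Red (e0.add vD))
    (ih : ∀ f, deg f < deg (e0.add vD) → Red f → AllP labU moU lab mo ex f) :
    AllP labU moU lab mo ex (e0.add vD) := by
  have hr0 : Red e0 := by simp only [Red, Mon.add, vD] at *; omega
  have hst : ∀ f, Red f → zD f → labU (f.add vD) = labU f ∧ moU (f.add vD) = moU f ∧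
      lab (f.add vD) = lab f ∧ mo (f.add vD) = mo f := by
    intro f a b
    have := hi.invD f a b
    simp only [Prod.mk.injEq] at this
    exact this
  have hz0 : zD e0 := by simp only [zD]; omega
  obtain ⟨hL, hZ, hZC⟩ := ih e0 (by simp only [deg, Mon.add, vD]; omega) hr0
  constructor
  · refine loc_zoneP labU moU lab mo ex vD e0 zD hr0 rfl rfl (by decide) hst
      (fun l f _ a b c => levD l f a b c)
      ?_ ?_ (Or.inl rfl) (Or.inl rfl) (Or.inl rfl) (Or.inr (by omega)) ih
    · intro f hf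
      rcases near_off hf with h | (h | h | h | h | h) | (h | h | h | h | h) | h | h | h | h <;>
      simp only [Offs] at h <;>
      simp only [Red, Mon.add, vD] <;> omega
    · intro f hf hrf
      rcases near_off hf with h | (h | h | h | h | h) | (h | h | h | h | h) | h | h | h | h <;>
      simp only [Offs] at h <;>
      simp only [Red, zD] at * <;> omega
  · exact ⟨zokD labU e0 h3 hz0 (hst e0 hr0 hz0).1 hZ,
      zokD lab e0 h3 hz0 (hst e0 hr0 hz0).2.2.1 hZC⟩

theorem caseS (hi : Inv (fun e => (labU e, moU e, lab e, mo e))) (e0 : Mon)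
    (h1 : 10 ≤ e0.e1) (h5 : 7 ≤ e0.e6)
    (hr : Red (e0.add vS))
    (ih : ∀ f, deg f < deg (e0.add vS) → Red f → AllP labU moU lab mo ex f) :
    AllP labU moU lab mo ex (e0.add vS) := by
  have hr0 : Red e0 := by simp only [Red, Mon.add, vS] at *; omega
  have hst : ∀ f, Red f → zS f → labU (f.add vS) = labU f ∧ moU (f.add vS) = moU f ∧
      lab (f.add vS) = lab f ∧ mo (f.add vS) = mo f := by
    intro f a b
    have := hi.invS f a b
    simp only [Prod.mk.injEq] at this
    exact this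
  have hz0 : zS e0 := by simp only [zS]; omega
  obtain ⟨hL, hZ, hZC⟩ := ih e0 (by simp only [deg, Mon.add, vS]; omega) hr0
  constructor
  · refine loc_zoneP labU moU lab mo ex vS e0 zS hr0 rfl rfl (by decide) hst
      (fun l f _ a b c => levS l f a b c)
      ?_ ?_ (Or.inr (by omega)) (Or.inl rfl) (Or.inl rfl) (Or.inr (by omega)) ih
    · intro f hf
      rcases near_off hf with h | (h | h | h | h | h) | (h | h | h | h | h) | h | h | h | h <;>
      simp only [Offs] at h <;>
      simp only [Red, Mon.add, vS] <;> omega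
    · intro f hf hrf
      rcases near_off hf with h | (h | h | h | h | h) | (h | h | h | h | h) | h | h | h | h <;>
      simp only [Offs] at h <;>
      simp only [Red, zS] at * <;> omega
  · exact ⟨zokS labU e0 h1 h5 hr0 hz0 (hst e0 hr0 hz0).1 hZ,
      zokS lab e0 h1 h5 hr0 hz0 (hst e0 hr0 hz0).2.2.1 hZC⟩

theorem all_of_windowP (labU : Mon → LLab) (moU : Mon → ℕ) (lab : Mon → LLab) (mo : Mon → ℕ)
    (ex : Prop)
    (hi : Inv (fun e => (labU e, moU e, lab e, mo e)))
    (h : ∀ e, Red e → InOm e → AllP labU moU lab mo ex e) :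
    ∀ e, Red e → AllP labU moU lab mo ex e := by
  have key : ∀ n : ℕ, ∀ e, deg e = n → Red e → AllP labU moU lab mo ex e := by
    intro n
    induction n using Nat.strong_induction_on with
    | _ n ih =>
    intro e hd hr
    have ih' : ∀ f, deg f < deg e → Red f → AllP labU moU lab mo ex f :=
      fun f hf hrf => ih (deg f) (hd ▸ hf) f rfl hrf
    by_cases ho : InOm e
    · exact h e hr ho
    by_cases c2 : 8 ≤ e.e2
    · have he : e = (⟨e.e1, e.e2 - 1, e.e3, e.e4, e.e5, e.e6⟩ : Mon).add v2 := by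
        obtain ⟨a1, a2, a3, a4, a5, a6⟩ := e
        simp only [Mon.add, v2, Mon.mk.injEq] at *; omega
      have h0 : 7 ≤ (⟨e.e1, e.e2 - 1, e.e3, e.e4, e.e5, e.e6⟩ : Mon).e2 := by dsimp only; omega
      revert h0
      generalize (⟨e.e1, e.e2 - 1, e.e3, e.e4, e.e5, e.e6⟩ : Mon) = e0 at he
      intro h0
      subst he
      exact case2 hi e0 h0 hr ih'
    by_cases c3 : 10 ≤ e.e4
    · have he : e = (⟨e.e1, e.e2, e.e3, e.e4 - 1, e.e5, e.e6⟩ : Mon).add v4 := by
        obtain ⟨a1, a2, a3, a4, a5, a6⟩ := e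
        simp only [Mon.add, v4, Mon.mk.injEq] at *; omega
      have h0 : 9 ≤ (⟨e.e1, e.e2, e.e3, e.e4 - 1, e.e5, e.e6⟩ : Mon).e4 := by dsimp only; omega
      revert h0
      generalize (⟨e.e1, e.e2, e.e3, e.e4 - 1, e.e5, e.e6⟩ : Mon) = e0 at he
      intro h0
      subst he
      exact case4 hi e0 h0 hr ih'
    by_cases cE : (3 * e.e6 + 3 - e.e2) + e.e4 + 14 ≤ 2 * e.e1
    · have he : e = (⟨e.e1 - 2, e.e2, e.e3, e.e4, e.e5, e.e6⟩ : Mon).add vE := by
        obtain ⟨a1, a2, a3, a4, a5, a6⟩ := e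
        simp only [Mon.add, vE, Mon.mk.injEq] at *; omega
      have h0 : (3 * (⟨e.e1 - 2, e.e2, e.e3, e.e4, e.e5, e.e6⟩ : Mon).e6 + 3 -
          (⟨e.e1 - 2, e.e2, e.e3, e.e4, e.e5, e.e6⟩ : Mon).e2) +
          (⟨e.e1 - 2, e.e2, e.e3, e.e4, e.e5, e.e6⟩ : Mon).e4 + 10 ≤
          2 * (⟨e.e1 - 2, e.e2, e.e3, e.e4, e.e5, e.e6⟩ : Mon).e1 := by dsimp only; omega
      revert h0
      generalize (⟨e.e1 - 2, e.e2, e.e3, e.e4, e.e5, e.e6⟩ : Mon) = e0 at he
      intro h0
      subst he
      exact caseE hi e0 h0 hr ih'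
    by_cases cD : (2 * e.e1 + 2 - e.e4) + e.e2 + 12 ≤ 3 * e.e6
    · have he : e = (⟨e.e1, e.e2, e.e3, e.e4, e.e5, e.e6 - 1⟩ : Mon).add vD := by
        obtain ⟨a1, a2, a3, a4, a5, a6⟩ := e
        simp only [Mon.add, vD, Mon.mk.injEq] at *; omega
      have h0 : (2 * (⟨e.e1, e.e2, e.e3, e.e4, e.e5, e.e6 - 1⟩ : Mon).e1 + 2 -
          (⟨e.e1, e.e2, e.e3, e.e4, e.e5, e.e6 - 1⟩ : Mon).e4) +
          (⟨e.e1, e.e2, e.e3, e.e4, e.e5, e.e6 - 1⟩ : Mon).e2 + 9 ≤
          3 * (⟨e.e1, e.e2, e.e3, e.e4, e.e5, e.e6 - 1⟩ : Mon).e6 := by dsimp only; omega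
      revert h0
      generalize (⟨e.e1, e.e2, e.e3, e.e4, e.e5, e.e6 - 1⟩ : Mon) = e0 at he
      intro h0
      subst he
      exact caseD hi e0 h0 hr ih'
    have cS : 13 ≤ e.e1 ∧ 9 ≤ e.e6 := by
      simp only [InOm] at ho; omega
    have he : e = (⟨e.e1 - 3, e.e2, e.e3, e.e4, e.e5, e.e6 - 2⟩ : Mon).add vS := by
      obtain ⟨a1, a2, a3, a4, a5, a6⟩ := e
      simp only [Mon.add, vS, Mon.mk.injEq] at *; omega
    have h0 : 10 ≤ (⟨e.e1 - 3, e.e2, e.e3, e.e4, e.e5, e.e6 - 2⟩ : Mon).e1 := by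
      dsimp only; omega
    have h0' : 7 ≤ (⟨e.e1 - 3, e.e2, e.e3, e.e4, e.e5, e.e6 - 2⟩ : Mon).e6 := by
      dsimp only; omega
    revert h0 h0'
    generalize (⟨e.e1 - 3, e.e2, e.e3, e.e4, e.e5, e.e6 - 2⟩ : Mon) = e0 at he
    intro h0 h0'
    subst he
    exact caseS hi e0 h0 h0' hr ih'
  intro e hr
  exact key _ e rfl hr

end Pool.L6
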