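import Pool.Agent.Helper43.L6.Chk
import Pool.Agent.Helper43.L6.Window2
import Pool.Agent.Helper43.LB.SndBase

/-!
# Project L6: soundness of the checker
-/

set_option autoImplicit false

namespace Pool.L6

open Pool.LS (LLab allN getRow)
open Pool.LB (bif_true ble_true ble_false blt_true blt_false nbeq_true nbeq_false allN_true)

theorem redB_iff (e1 e2 e3 e4 e5 e6 : ℕ) :
    redB e1 e2 e3 e4 e5 e6 = true ↔ Red ⟨e1, e2, e3, e4, e5, e6⟩ := by
  unfold redB Red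
  rw [Bool.and_eq_true, Bool.and_eq_true, Bool.and_eq_true, Bool.or_eq_true, Bool.or_eq_true,
    ble_true, ble_true, ble_true, ble_true, ble_true, ble_true]
  dsimp only
  omega

/-! ### Predecessors -/

theorem p1_iff (C : ℕ → ℕ → ℕ → ℕ → ℕ → ℕ → ℕ) (e : Mon) :
    p1B C e.e1 e.e2 e.e3 e.e4 e.e5 e.e6 = true ↔ Pred (moOf C) 1 e := by
  unfold p1B Pred
  rw [Bool.and_eq_true, Bool.and_eq_true, redB_iff, ble_true, nbeq_true]
  constructor
  · rintro ⟨⟨h1, h2⟩, h3⟩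
    exact ⟨_, by simp only [mvB]; rw [if_pos h1], h2, h3⟩
  · rintro ⟨g, h1, h2, h3⟩
    simp only [mvB] at h1
    by_cases hc : 1 ≤ e.e2
    · rw [if_pos hc] at h1
      injection h1 with h1
      subst h1
      exact ⟨⟨hc, h2⟩, h3⟩
    · rw [if_neg hc] at h1
      cases h1

theorem p2_iff (C : ℕ → ℕ → ℕ → ℕ → ℕ → ℕ → ℕ) (e : Mon) :
    p2B C e.e1 e.e2 e.e3 e.e4 e.e5 e.e6 = true ↔ Pred (moOf C) 2 e := by
  unfold p2B Pred
  rw [Bool.and_eq_true, Bool.and_eq_true, redB_iff, ble_true, nbeq_true]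
  constructor
  · rintro ⟨⟨h1, h2⟩, h3⟩
    exact ⟨_, by simp only [mvB]; rw [if_pos h1], h2, h3⟩
  · rintro ⟨g, h1, h2, h3⟩
    simp only [mvB] at h1
    by_cases hc : 1 ≤ e.e3
    · rw [if_pos hc] at h1
      injection h1 with h1
      subst h1
      exact ⟨⟨hc, h2⟩, h3⟩
    · rw [if_neg hc] at h1
      cases h1

theorem p3_iff (C : ℕ → ℕ → ℕ → ℕ → ℕ → ℕ → ℕ) (e : Mon) :
    p3B C e.e1 e.e2 e.e3 e.e4 e.e5 e.e6 = true ↔ Pred (moOf C) 3 e := by
  unfold p3B Pred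
  rw [Bool.and_eq_true, Bool.and_eq_true, redB_iff, ble_true, nbeq_true]
  constructor
  · rintro ⟨⟨h1, h2⟩, h3⟩
    exact ⟨_, by simp only [mvB]; rw [if_pos h1], h2, h3⟩
  · rintro ⟨g, h1, h2, h3⟩
    simp only [mvB] at h1
    by_cases hc : 1 ≤ e.e4
    · rw [if_pos hc] at h1
      injection h1 with h1
      subst h1
      exact ⟨⟨hc, h2⟩, h3⟩
    · rw [if_neg hc] at h1
      cases h1

theorem p4_iff (C : ℕ → ℕ → ℕ → ℕ → ℕ → ℕ → ℕ) (e : Mon) :
    p4B C e.e1 e.e2 e.e3 e.e4 e.e5 e.e6 = true ↔ Pred (moOf C) 4 e := by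
  unfold p4B Pred
  rw [Bool.and_eq_true, Bool.and_eq_true, redB_iff, ble_true, nbeq_true]
  constructor
  · rintro ⟨⟨h1, h2⟩, h3⟩
    exact ⟨_, by simp only [mvB]; rw [if_pos h1], h2, h3⟩
  · rintro ⟨g, h1, h2, h3⟩
    simp only [mvB] at h1
    by_cases hc : 1 ≤ e.e5
    · rw [if_pos hc] at h1
      injection h1 with h1
      subst h1
      exact ⟨⟨hc, h2⟩, h3⟩
    · rw [if_neg hc] at h1
      cases h1

theorem p5_iff (C : ℕ → ℕ → ℕ → ℕ → ℕ → ℕ → ℕ) (e : Mon) :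
    p5B C e.e1 e.e2 e.e3 e.e4 e.e5 e.e6 = true ↔ Pred (moOf C) 5 e := by
  unfold p5B Pred
  rw [Bool.and_eq_true, Bool.and_eq_true, redB_iff, ble_true, nbeq_true]
  constructor
  · rintro ⟨⟨h1, h2⟩, h3⟩
    exact ⟨_, by simp only [mvB]; rw [if_pos h1], h2, h3⟩
  · rintro ⟨g, h1, h2, h3⟩
    simp only [mvB] at h1
    by_cases hc : 1 ≤ e.e6
    · rw [if_pos hc] at h1
      injection h1 with h1
      subst h1
      exact ⟨⟨hc, h2⟩, h3⟩
    · rw [if_neg hc] at h1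
      cases h1

/-- only the moves `1, …, 5` have predecessors -/
theorem pred_cases {mo : Mon → ℕ} {k : ℕ} {e : Mon} (h : Pred mo k e) :
    (k = 1 ∧ Pred mo 1 e) ∨ (k = 2 ∧ Pred mo 2 e) ∨ (k = 3 ∧ Pred mo 3 e) ∨
      (k = 4 ∧ Pred mo 4 e) ∨ (k = 5 ∧ Pred mo 5 e) := by
  match k, h with
  | 0, h => obtain ⟨g, hg, _⟩ := h; cases hg
  | 1, h => exact Or.inl ⟨rfl, h⟩
  | 2, h => exact Or.inr (Or.inl ⟨rfl, h⟩)
  | 3, h => exact Or.inr (Or.inr (Or.inl ⟨rfl, h⟩))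
  | 4, h => exact Or.inr (Or.inr (Or.inr (Or.inl ⟨rfl, h⟩)))
  | 5, h => exact Or.inr (Or.inr (Or.inr (Or.inr ⟨rfl, h⟩)))
  | n + 6, h => obtain ⟨g, hg, _⟩ := h; cases hg

/-- the numbers of `true` -/
theorem one5_ex {a b c d e : Bool} (h : one5 a b c d e = true) :
    a = true ∨ b = true ∨ c = true ∨ d = true ∨ e = true := by
  revert h; cases a <;> cases b <;> cases c <;> cases d <;> cases e <;> simp [one5]

theorem one5_12 {a b c d e : Bool} (h : one5 a b c d e = true) : ¬ (a = true ∧ b = true) := by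
  revert h; cases a <;> cases b <;> cases c <;> cases d <;> cases e <;> simp [one5]
theorem one5_13 {a b c d e : Bool} (h : one5 a b c d e = true) : ¬ (a = true ∧ c = true) := by
  revert h; cases a <;> cases b <;> cases c <;> cases d <;> cases e <;> simp [one5]
theorem one5_14 {a b c d e : Bool} (h : one5 a b c d e = true) : ¬ (a = true ∧ d = true) := by
  revert h; cases a <;> cases b <;> cases c <;> cases d <;> cases e <;> simp [one5]
theorem one5_15 {a b c d e : Bool} (h : one5 a b c d e = true) : ¬ (a = true ∧ e = true) := by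
  revert h; cases a <;> cases b <;> cases c <;> cases d <;> cases e <;> simp [one5]
theorem one5_23 {a b c d e : Bool} (h : one5 a b c d e = true) : ¬ (b = true ∧ c = true) := by
  revert h; cases a <;> cases b <;> cases c <;> cases d <;> cases e <;> simp [one5]
theorem one5_24 {a b c d e : Bool} (h : one5 a b c d e = true) : ¬ (b = true ∧ d = true) := by
  revert h; cases a <;> cases b <;> cases c <;> cases d <;> cases e <;> simp [one5]
theorem one5_25 {a b c d e : Bool} (h : one5 a b c d e = true) : ¬ (b = true ∧ e = true) := by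
  revert h; cases a <;> cases b <;> cases c <;> cases d <;> cases e <;> simp [one5]
theorem one5_34 {a b c d e : Bool} (h : one5 a b c d e = true) : ¬ (c = true ∧ d = true) := by
  revert h; cases a <;> cases b <;> cases c <;> cases d <;> cases e <;> simp [one5]
theorem one5_35 {a b c d e : Bool} (h : one5 a b c d e = true) : ¬ (c = true ∧ e = true) := by
  revert h; cases a <;> cases b <;> cases c <;> cases d <;> cases e <;> simp [one5]
theorem one5_45 {a b c d e : Bool} (h : one5 a b c d e = true) : ¬ (d = true ∧ e = true) := by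
  revert h; cases a <;> cases b <;> cases c <;> cases d <;> cases e <;> simp [one5]

theorem cod_eq (T V : List ℕ) (e : Mon) :
    cod T V e.e1 e.e2 e.e3 e.e4 e.e5 e.e6 =
      look T V (ka e).e1 (ka e).e2 (ka e).e3 (ka e).e4 (ka e).e5 (ka e).e6 := by
  unfold cod ka kc
  simp only
  split_ifs with h1 h2
  · rw [ble_true.mpr h1]; rfl
  · rw [ble_false.mpr (Nat.lt_of_not_le h1), ble_true.mpr h2]; rfl
  · rw [ble_false.mpr (Nat.lt_of_not_le h1), ble_false.mpr (Nat.lt_of_not_le h2)]; rfl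

/-! ### The labels -/

theorem decN_A {l : ℕ} (h : l < 32) : decN l = .A l := by
  unfold decN; rw [blt_true.mpr h]; rfl

theorem decN_L {l : ℕ} (h : 32 ≤ l) (h' : l < 48) : decN l = .L (l - 32) := by
  unfold decN; rw [blt_false.mpr h, blt_true.mpr h']; rfl

theorem decN_B {l : ℕ} (h : 48 ≤ l) (h' : l < 56) : decN l = .B (l - 48) := by
  unfold decN; rw [blt_false.mpr (by omega : 32 ≤ l), blt_false.mpr h, blt_true.mpr h']; rfl

theorem decN_C {l : ℕ} (h : 56 ≤ l) : decN l = .C (l - 56) := by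
  unfold decN
  rw [blt_false.mpr (by omega : 32 ≤ l), blt_false.mpr (by omega : 48 ≤ l), blt_false.mpr h]; rfl

/-- the four cases -/
theorem decN_cases (l : ℕ) : (l < 32 ∧ decN l = .A l) ∨ (32 ≤ l ∧ l < 48 ∧ decN l = .L (l - 32)) ∨
    (48 ≤ l ∧ l < 56 ∧ decN l = .B (l - 48)) ∨ (56 ≤ l ∧ decN l = .C (l - 56)) := by
  rcases Nat.lt_or_ge l 32 with h | h
  · exact Or.inl ⟨h, decN_A h⟩
  rcases Nat.lt_or_ge l 48 with h' | h'
  · exact Or.inr (Or.inl ⟨h, h', decN_L h h'⟩)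
  rcases Nat.lt_or_ge l 56 with h'' | h''
  · exact Or.inr (Or.inr (Or.inl ⟨h', h'', decN_B h' h''⟩))
  · exact Or.inr (Or.inr (Or.inr ⟨h'', decN_C h''⟩))

theorem decN_B_iff {l j : ℕ} : decN l = .B j ↔ 48 ≤ l ∧ l < 56 ∧ j = l - 48 := by
  rcases decN_cases l with ⟨h, e⟩ | ⟨h, h', e⟩ | ⟨h, h', e⟩ | ⟨h, e⟩
  · rw [e]; constructor
    · intro k; cases k
    · intro k; omega
  · rw [e]; constructor
    · intro k; cases k
    · intro k; omega
  · rw [e]; constructor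
    · intro k; injection k with k; exact ⟨h, h', k.symm⟩
    · intro k; rw [k.2.2]
  · rw [e]; constructor
    · intro k; cases k
    · intro k; omega

theorem decN_C_iff {l j : ℕ} : decN l = .C j ↔ 56 ≤ l ∧ j = l - 56 := by
  rcases decN_cases l with ⟨h, e⟩ | ⟨h, h', e⟩ | ⟨h, h', e⟩ | ⟨h, e⟩
  · rw [e]; constructor
    · intro k; cases k
    · intro k; omega
  · rw [e]; constructor
    · intro k; cases k
    · intro k; omega
  · rw [e]; constructor
    · intro k; cases k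
    · intro k; omega
  · rw [e]; constructor
    · intro k; injection k with k; exact ⟨h, k.symm⟩
    · intro k; rw [k.2]

theorem decN_B6 {l : ℕ} : decN l = .B 6 ↔ l = 54 := by rw [decN_B_iff]; omega
theorem decN_C7 {l : ℕ} : decN l = .C 7 ↔ l = 63 := by rw [decN_C_iff]; omega
theorem decN_C0 {l : ℕ} : decN l = .C 0 ↔ l = 56 := by rw [decN_C_iff]; omega

/-- the next label -/
theorem decN_next {l l' : ℕ} (h55 : l ≠ 55) (h : l' = bif Nat.blt l 48 then l else l + 1) :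
    decN l' = (decN l).next := by
  rcases Nat.lt_or_ge l 48 with h48 | h48
  · rw [blt_true.mpr h48] at h
    change l' = l at h
    rw [h]
    rcases decN_cases l with ⟨k, e⟩ | ⟨k, k', e⟩ | ⟨k, k', e⟩ | ⟨k, e⟩
    · rw [e]; rfl
    · rw [e]; rfl
    · omega
    · omega
  · rw [blt_false.mpr h48] at h
    change l' = l + 1 at h
    rw [h]
    rcases Nat.lt_or_ge l 56 with h53 | h53
    · rw [decN_B h48 h53, decN_B (by omega) (by omega)]
      change LLab.B (l + 1 - 48) = LLab.B (l - 48 + 1)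
      congr 1; omega
    · rw [decN_C h53, decN_C (by omega)]
      change LLab.C (l + 1 - 56) = LLab.C (l - 56 + 1)
      congr 1; omega

theorem topN_iff (l : ℕ) (e : Mon) :
    topAB l e.e1 e.e2 e.e3 e.e4 e.e5 e.e6 = true ↔ isTopA (decN l) e := by
  unfold topAB
  rw [bif_true, Bool.and_eq_true, nbeq_true, nbeq_true, blt_true, blt_true, blt_false]
  rcases decN_cases l with ⟨h, k⟩ | ⟨h, h', k⟩ | ⟨h, h', k⟩ | ⟨h, k⟩
  · rw [k]; simp only [isTopA, up, dn]; omega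
  · rw [k]; simp only [isTopA, up, dn, deg]; omega
  · rw [k]; exact ⟨fun q => by omega, fun q => q.elim⟩
  · rw [k]; exact ⟨fun q => by omega, fun q => q.elim⟩

theorem botN_iff (l : ℕ) (e : Mon) :
    botAB l e.e1 e.e2 e.e3 e.e4 e.e5 e.e6 = true ↔ isBotA (decN l) e := by
  unfold botAB
  rw [bif_true, Bool.and_eq_true, nbeq_true, nbeq_true, blt_true, blt_true, blt_false]
  rcases decN_cases l with ⟨h, k⟩ | ⟨h, h', k⟩ | ⟨h, h', k⟩ | ⟨h, k⟩
  · rw [k]; simp only [isBotA, up, dn]; omega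
  · rw [k]; simp only [isBotA, up, dn, deg]; omega
  · rw [k]; exact ⟨fun q => by omega, fun q => q.elim⟩
  · rw [k]; exact ⟨fun q => by omega, fun q => q.elim⟩

theorem rangeN_imp (l : ℕ) (e : Mon) (h : rangeNB l e.e1 e.e2 e.e3 e.e4 e.e5 e.e6 = true) :
    rangeN (decN l) e := by
  unfold rangeNB at h
  rw [bif_true, bif_true, Bool.and_eq_true, ble_true,
    ble_true, blt_true, blt_true, blt_true, blt_false, blt_false] at h
  rcases decN_cases l with ⟨k1, k⟩ | ⟨k1, k2, k⟩ | ⟨k1, k2, k⟩ | ⟨k1, k⟩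
  · rw [k]; trivial
  · rw [k]; simp only [rangeN, up, dn, deg]; omega
  · rw [k]; simp only [rangeN]; omega
  · rw [k]; simp only [rangeN]; omega

theorem off_imp (l k : ℕ) (e : Mon) (hk : 48 ≤ k) (hk' : k ≤ 50)
    (h : offB l k e.e1 e.e2 e.e3 e.e4 e.e5 e.e6 = true) :
    OffN (decN l) e (k - 48) := by
  unfold offB at h
  rw [bif_true, bif_true, Bool.and_eq_true, nbeq_true, nbeq_true,
    nbeq_true, blt_true, blt_true, blt_true, blt_false, blt_false] at h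
  rcases decN_cases l with ⟨k1, q⟩ | ⟨k1, k2, q⟩ | ⟨k1, k2, q⟩ | ⟨k1, q⟩
  · rw [q]; simp only [OffN, up, dn]; omega
  · rw [q]; simp only [OffN, up, dn, deg]; omega
  · rw [q]; simp only [OffN]; omega
  · omega

/-- the step -/
theorem stepN_imp (C : ℕ → ℕ → ℕ → ℕ → ℕ → ℕ → ℕ) (l m : ℕ) (e : Mon) (h55 : l ≠ 55)
    (h : stepB C l m e.e1 e.e2 e.e3 e.e4 e.e5 e.e6 = true) :
    ∃ f, mvF m e = some f ∧ Red f ∧ labK C f = (decN l).next := by
  unfold stepB at h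
  rw [bif_true, nbeq_true, nbeq_false] at h
  by_cases h1 : m = 1
  · have h := h.1 h1
    rw [Bool.and_eq_true, Bool.and_eq_true, redB_iff, ble_true, nbeq_true] at h
    obtain ⟨⟨k1, k2⟩, k3⟩ := h
    exact ⟨_, by rw [h1]; simp only [mvF]; rw [if_pos k1], k2, decN_next h55 k3⟩
  have h := h.2 h1
  rw [bif_true, nbeq_true, nbeq_false] at h
  by_cases h2 : m = 2
  · have h := h.1 h2
    rw [Bool.and_eq_true, Bool.and_eq_true, redB_iff, ble_true, nbeq_true] at h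
    obtain ⟨⟨k1, k2⟩, k3⟩ := h
    exact ⟨_, by rw [h2]; simp only [mvF]; rw [if_pos k1], k2, decN_next h55 k3⟩
  have h := h.2 h2
  rw [bif_true, nbeq_true, nbeq_false] at h
  by_cases h3 : m = 3
  · have h := h.1 h3
    rw [Bool.and_eq_true, Bool.and_eq_true, redB_iff, ble_true, nbeq_true] at h
    obtain ⟨⟨k1, k2⟩, k3⟩ := h
    exact ⟨_, by rw [h3]; simp only [mvF]; rw [if_pos k1], k2, decN_next h55 k3⟩
  have h := h.2 h3
  rw [bif_true, nbeq_true, nbeq_false] at h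
  by_cases h4 : m = 4
  · have h := h.1 h4
    rw [Bool.and_eq_true, Bool.and_eq_true, redB_iff, ble_true, nbeq_true] at h
    obtain ⟨⟨k1, k2⟩, k3⟩ := h
    exact ⟨_, by rw [h4]; simp only [mvF]; rw [if_pos k1], k2, decN_next h55 k3⟩
  have h := h.2 h4
  rw [Bool.and_eq_true, Bool.and_eq_true, Bool.and_eq_true, redB_iff, ble_true, nbeq_true,
    nbeq_true] at h
  obtain ⟨⟨⟨h5, k1⟩, k2⟩, k3⟩ := h
  exact ⟨_, by rw [h5]; simp only [mvF]; rw [if_pos k1], k2, decN_next h55 k3⟩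

theorem st_iffB (C : ℕ → ℕ → ℕ → ℕ → ℕ → ℕ → ℕ) (e : Mon) :
    stB C e.e1 e.e2 e.e3 e.e4 e.e5 e.e6 = true ↔ IsSt (labK C) (moOf C) e := by
  unfold stB IsSt IsTp
  rw [Bool.and_eq_true, Bool.and_eq_true, ble_true, nbeq_true, Bool.not_eq_true', nbeq_false]
  constructor
  · rintro ⟨⟨h1, h2⟩, h3⟩
    refine ⟨⟨e.e1 - 1, e.e2, e.e3, e.e4, e.e5, e.e6⟩, ?_, h2, fun h => h3 (decN_C7.mp h)⟩
    unfold x1
    obtain ⟨e1, e2, e3, e4, e5, e6⟩ := e
    change 1 ≤ e1 at h1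
    change (⟨e1, e2, e3, e4, e5, e6⟩ : Mon) = ⟨e1 - 1 + 1, e2, e3, e4, e5, e6⟩
    rw [Nat.sub_add_cancel h1]
  · rintro ⟨t, rfl, h2, h3⟩
    refine ⟨⟨?_, h2⟩, fun h => h3 (decN_C7.mpr h)⟩
    show 1 ≤ t.e1 + 1
    omega

/-- what `predsB` says -/
theorem preds_imp (C : ℕ → ℕ → ℕ → ℕ → ℕ → ℕ → ℕ) (b : Bool) (e : Mon)
    (h3 : predsB C b e.e1 e.e2 e.e3 e.e4 e.e5 e.e6 = true) :
    (b = false → ∃ k, Pred (moOf C) k e) ∧
    (∀ k k', Pred (moOf C) k e → Pred (moOf C) k' e → k = k') ∧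
    (b = true → ∀ k, ¬ Pred (moOf C) k e) := by
  unfold predsB at h3
  rw [bif_true] at h3
  have hstart : b = true → ∀ k, ¬ Pred (moOf C) k e := by
    intro hb k hk
    have h := h3.1 hb
    simp only [Bool.and_eq_true, Bool.not_eq_true', ← Bool.not_eq_true, p1_iff, p2_iff, p3_iff,
      p4_iff, p5_iff] at h
    obtain ⟨⟨⟨⟨n1, n2⟩, n3⟩, n4⟩, n5⟩ := h
    rcases pred_cases hk with ⟨-, h⟩ | ⟨-, h⟩ | ⟨-, h⟩ | ⟨-, h⟩ | ⟨-, h⟩
    · exact n1 h
    · exact n2 h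
    · exact n3 h
    · exact n4 h
    · exact n5 h
  refine ⟨?_, ?_, hstart⟩
  · intro hb
    rcases one5_ex (h3.2 hb) with h | h | h | h | h
    · exact ⟨1, (p1_iff C e).mp h⟩
    · exact ⟨2, (p2_iff C e).mp h⟩
    · exact ⟨3, (p3_iff C e).mp h⟩
    · exact ⟨4, (p4_iff C e).mp h⟩
    · exact ⟨5, (p5_iff C e).mp h⟩
  · intro k k' hk hk'
    cases hb : b with
    | true => exact absurd hk (hstart hb k)
    | false =>
      have h := h3.2 hb
      have n12 := one5_12 h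
      have n13 := one5_13 h
      have n14 := one5_14 h
      have n15 := one5_15 h
      have n23 := one5_23 h
      have n24 := one5_24 h
      have n25 := one5_25 h
      have n34 := one5_34 h
      have n35 := one5_35 h
      have n45 := one5_45 h
      rw [p1_iff, p2_iff] at n12
      rw [p1_iff, p3_iff] at n13
      rw [p1_iff, p4_iff] at n14
      rw [p1_iff, p5_iff] at n15
      rw [p2_iff, p3_iff] at n23
      rw [p2_iff, p4_iff] at n24
      rw [p2_iff, p5_iff] at n25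
      rw [p3_iff, p4_iff] at n34
      rw [p3_iff, p5_iff] at n35
      rw [p4_iff, p5_iff] at n45
      rcases pred_cases hk with ⟨a, p⟩ | ⟨a, p⟩ | ⟨a, p⟩ | ⟨a, p⟩ | ⟨a, p⟩ <;>
        rcases pred_cases hk' with ⟨b, q⟩ | ⟨b, q⟩ | ⟨b, q⟩ | ⟨b, q⟩ | ⟨b, q⟩ <;>
        first
          | exact a.trans b.symm
          | exact (n12 ⟨p, q⟩).elim
          | exact (n13 ⟨p, q⟩).elim
          | exact (n14 ⟨p, q⟩).elim
          | exact (n15 ⟨p, q⟩).elim
          | exact (n23 ⟨p, q⟩).elim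
          | exact (n24 ⟨p, q⟩).elim
          | exact (n25 ⟨p, q⟩).elim
          | exact (n34 ⟨p, q⟩).elim
          | exact (n35 ⟨p, q⟩).elim
          | exact (n45 ⟨p, q⟩).elim
          | exact (n12 ⟨q, p⟩).elim
          | exact (n13 ⟨q, p⟩).elim
          | exact (n14 ⟨q, p⟩).elim
          | exact (n15 ⟨q, p⟩).elim
          | exact (n23 ⟨q, p⟩).elim
          | exact (n24 ⟨q, p⟩).elim
          | exact (n25 ⟨q, p⟩).elim
          | exact (n34 ⟨q, p⟩).elim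
          | exact (n35 ⟨q, p⟩).elim
          | exact (n45 ⟨q, p⟩).elim

/-- the beginnings -/
theorem beg_iff (C : ℕ → ℕ → ℕ → ℕ → ℕ → ℕ → ℕ) (l : ℕ) (e : Mon) :
    (isBotA (decN l) e ∨ decN l = .C 0 ∨ IsSt (labK C) (moOf C) e) ↔
      (botAB l e.e1 e.e2 e.e3 e.e4 e.e5 e.e6 || Nat.beq l 56 ||
        stB C e.e1 e.e2 e.e3 e.e4 e.e5 e.e6) = true := by
  rw [Bool.or_eq_true, Bool.or_eq_true, nbeq_true, botN_iff, decN_C0, st_iffB, or_assoc]

theorem bots_imp (C : ℕ → ℕ → ℕ → ℕ → ℕ → ℕ → ℕ) (l : ℕ) (e : Mon)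
    (h : botsB C l e.e1 e.e2 e.e3 e.e4 e.e5 e.e6 = true) :
    ((isBotA (decN l) e ∨ decN l = .C 0) → e.e5 = 0 ∧ Red (x45 e) ∧ labK C (x45 e) = .C 7) ∧
    (decN l = .C 7 → ∃ u, e = x45 u ∧ (isBotA (labK C u) u ∨ labK C u = .C 0)) := by
  unfold botsB at h
  rw [Bool.and_eq_true] at h
  obtain ⟨h6, h7⟩ := h
  constructor
  · intro ht
    rw [decN_C0] at ht
    rw [bif_true, Bool.or_eq_true, botN_iff, nbeq_true] at h6
    have h := h6.1 ht
    rw [Bool.and_eq_true, Bool.and_eq_true, redB_iff, nbeq_true, nbeq_true] at h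
    exact ⟨h.1.1, h.1.2, decN_C7.mpr h.2⟩
  · intro hb
    rw [decN_C7] at hb
    rw [bif_true, nbeq_true] at h7
    have h := h7.1 hb
    rw [Bool.and_eq_true, Bool.and_eq_true, ble_true, ble_true, Bool.or_eq_true, nbeq_true] at h
    obtain ⟨⟨k1, k1'⟩, k2⟩ := h
    refine ⟨⟨e.e1, e.e2, e.e3, e.e4 - 1, e.e5 - 1, e.e6⟩, ?_, ?_⟩
    · unfold x45
      obtain ⟨e1, e2, e3, e4, e5, e6⟩ := e
      change 1 ≤ e4 at k1
      change 1 ≤ e5 at k1'
      change (⟨e1, e2, e3, e4, e5, e6⟩ : Mon) = ⟨e1, e2, e3, e4 - 1 + 1, e5 - 1 + 1, e6⟩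
      rw [Nat.sub_add_cancel k1, Nat.sub_add_cancel k1']
    · rcases k2 with k | k
      · left
        exact (botN_iff _ ⟨e.e1, e.e2, e.e3, e.e4 - 1, e.e5 - 1, e.e6⟩).mp k
      · right
        exact decN_C0.mpr k

theorem zones_imp (C : ℕ → ℕ → ℕ → ℕ → ℕ → ℕ → ℕ) (l : ℕ) (e : Mon) (hl : labK C e = decN l)
    (h : zonesB l e.e1 e.e2 e.e3 e.e4 e.e5 e.e6 = true) : ZoneOK (labK C) e := by
  unfold zonesB at h
  simp only [Bool.and_eq_true] at h
  obtain ⟨⟨⟨⟨h8, h9⟩, h10⟩, h11⟩, h12⟩ := h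
  refine ⟨?_, ?_, ?_, ?_, ?_⟩
  · -- okE
    intro hz
    unfold zE at hz
    rw [bif_true, ble_true, ble_true] at h8
    rw [hl]
    exact ⟨_, decN_C (h8.1 hz)⟩
  · -- okD
    intro hz
    unfold zD at hz
    rw [bif_true, ble_true, Bool.and_eq_true, ble_true, ble_true] at h9
    obtain ⟨k1, k2⟩ := h9.1 hz
    rw [hl]
    exact ⟨_, decN_B k1 (by omega)⟩
  · -- ok2
    intro hz
    unfold z2 at hz
    rw [bif_true, Bool.and_eq_true, ble_true, nbeq_true, Bool.or_eq_true, Bool.and_eq_true,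
      Bool.and_eq_true, ble_true, ble_true, blt_true, blt_true] at h10
    rw [hl]
    rcases h10.1 hz with k | ⟨⟨k1, k2⟩, k3⟩
    · left; exact ⟨_, decN_C k⟩
    · right
      refine ⟨_, decN_L k1 k2, ?_⟩
      unfold up dn deg
      omega
  · -- ok4
    intro hz
    unfold z4 at hz
    rw [bif_true, Bool.and_eq_true, ble_true, ble_true, Bool.or_eq_true, Bool.and_eq_true,
      Bool.and_eq_true, Bool.and_eq_true, Bool.not_eq_true', ← Bool.not_eq_true, botN_iff,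
      ble_true, ble_true, ble_true, blt_true] at h11
    rw [hl]
    rcases h11.1 hz with ⟨k1, k2⟩ | ⟨⟨k1, k2⟩, k3⟩
    · left; exact ⟨_, decN_B k1 (by omega)⟩
    · right
      rw [decN_L k1 k2] at k3 ⊢
      exact ⟨_, rfl, k3⟩
  · -- okS
    intro hz c hc
    unfold zS at hz
    rw [bif_true, Bool.and_eq_true, ble_true, ble_true, Bool.not_eq_true', ← Bool.not_eq_true,
      Bool.and_eq_true, ble_true, blt_true] at h12
    have h := h12.1 hz
    rw [hl] at hc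
    rcases decN_cases l with ⟨k1, k⟩ | ⟨k1, k2, k⟩ | ⟨k1, k2, k⟩ | ⟨k1, k⟩
    · rw [k] at hc; cases hc
    · exact h ⟨k1, k2⟩
    · rw [k] at hc; cases hc
    · rw [k] at hc; cases hc

theorem chkP_sound (C D : ℕ → ℕ → ℕ → ℕ → ℕ → ℕ → ℕ) (ex : Bool) (e : Mon)
    (h : chkP C D ex (C e.e1 e.e2 e.e3 e.e4 e.e5 e.e6 / 8) (C e.e1 e.e2 e.e3 e.e4 e.e5 e.e6 % 8)
      (D e.e1 e.e2 e.e3 e.e4 e.e5 e.e6 / 8) (D e.e1 e.e2 e.e3 e.e4 e.e5 e.e6 % 8)
      e.e1 e.e2 e.e3 e.e4 e.e5 e.e6 = true) :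
    AllP (labK C) (moOf C) (labK D) (moOf D) (ex = true) e := by
  have hlU : labK C e = decN (C e.e1 e.e2 e.e3 e.e4 e.e5 e.e6 / 8) := rfl
  have hmU : moOf C e = C e.e1 e.e2 e.e3 e.e4 e.e5 e.e6 % 8 := rfl
  have hl : labK D e = decN (D e.e1 e.e2 e.e3 e.e4 e.e5 e.e6 / 8) := rfl
  have hm : moOf D e = D e.e1 e.e2 e.e3 e.e4 e.e5 e.e6 % 8 := rfl
  generalize C e.e1 e.e2 e.e3 e.e4 e.e5 e.e6 / 8 = lU at h hlU
  generalize C e.e1 e.e2 e.e3 e.e4 e.e5 e.e6 % 8 = mU at h hmU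
  generalize D e.e1 e.e2 e.e3 e.e4 e.e5 e.e6 / 8 = l at h hl
  generalize D e.e1 e.e2 e.e3 e.e4 e.e5 e.e6 % 8 = m at h hm
  unfold chkP at h
  simp only [Bool.and_eq_true] at h
  obtain ⟨⟨⟨⟨⟨⟨⟨h0, h1⟩, hT⟩, h2⟩, h3⟩, h4⟩, hZ⟩, h5⟩ := h
  obtain ⟨q1, q2, q3⟩ := preds_imp D _ e h3
  obtain ⟨q4, q5⟩ := bots_imp D l e h4
  rw [bif_true, nbeq_true, nbeq_false] at h2 hT
  refine ⟨⟨?_, ?_, ?_, ?_, ?_, q2, ?_, ?_, ?_, ?_⟩, zones_imp C lU e hlU hZ,
    zones_imp D l e hl h5⟩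
  · rw [hlU]; exact rangeN_imp lU e h0
  · rw [hl]; exact rangeN_imp l e h1
  · intro hmo
    rw [hm] at hmo ⊢
    have h := h2.2 hmo
    simp only [Bool.and_eq_true, Bool.not_eq_true', ← Bool.not_eq_true, nbeq_true] at h
    obtain ⟨⟨n1, n2⟩, n3⟩ := h
    obtain ⟨f, f1, f2, f3⟩ := stepN_imp D l m e n1 n3
    rw [hl]
    exact ⟨f, f1, f2, f3, fun q => n2 (decN_C7.mp q)⟩
  · intro hex hmo
    rw [hm] at hmo
    have h := h2.1 hmo
    rw [hex, Bool.or_eq_true, Bool.or_eq_true, Bool.or_eq_true, topN_iff, nbeq_true,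
      nbeq_true] at h
    rw [hl, decN_B6, decN_C7, ← or_assoc]
    rcases h with ((h | h) | h) | h
    · exact absurd h (by simp)
    · exact Or.inl (Or.inl h)
    · exact Or.inl (Or.inr h)
    · exact Or.inr h
  · intro hn
    rw [hl, beg_iff, Bool.not_eq_true] at hn
    exact q1 hn
  · intro hs
    rw [hl, beg_iff] at hs
    exact q3 hs
  · rintro ⟨t1, t2⟩
    rw [hmU] at t1
    rw [hlU, Ne, decN_C7] at t2
    have h := hT.1 t1
    rw [Bool.or_eq_true, nbeq_true] at h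
    rcases h with h | h
    · exact absurd h t2
    rw [Bool.and_eq_true, redB_iff] at h
    obtain ⟨r1, r2⟩ := h
    simp only [Bool.and_eq_true, ble_true] at r2
    obtain ⟨⟨s1, s2⟩, s4⟩ := r2
    refine ⟨r1, D (e.e1 + 1) e.e2 e.e3 e.e4 e.e5 e.e6 / 8 - 48, by omega, ?_, ?_⟩
    · rw [hlU]; exact off_imp lU _ e s1 s2 s4
    · show decN (D (e.e1 + 1) e.e2 e.e3 e.e4 e.e5 e.e6 / 8) = _
      exact decN_B s1 (by omega)
  · rw [hl]; exact q4
  · rw [hl]; exact q5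

end Pool.L6
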