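import Pool.Agent.Helper43.L6.Zones

/-!
# Project L6: moves and shifts
-/

set_option autoImplicit false
set_option linter.unusedSimpArgs false

namespace Pool.L6

theorem add_x1 (t v : Mon) : (x1 t).add v = x1 (t.add v) := by
  simp only [x1, Mon.add, Mon.mk.injEq, and_true]; omega

theorem add_x45 (t v : Mon) : (x45 t).add v = x45 (t.add v) := by
  simp only [x45, Mon.add, Mon.mk.injEq, and_true, true_and]; omega

/-- The moves commute with a shift if the coordinates concerned are positive. -/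
theorem mvF_add (v e0 : Mon) (h1 : v.e1 = 0 ∨ 1 ≤ e0.e1) (h2 : v.e2 = 0 ∨ 1 ≤ e0.e2)
    (h3 : v.e3 = 0 ∨ 1 ≤ e0.e3) (h4 : v.e4 = 0 ∨ 1 ≤ e0.e4) (h5 : v.e5 = 0 ∨ 1 ≤ e0.e5)
    (k : ℕ) :
    mvF k (e0.add v) = (mvF k e0).map (fun f => f.add v) := by
  have i1 : (1 ≤ e0.e1 + v.e1) ↔ (1 ≤ e0.e1) := by omega
  have i2 : (1 ≤ e0.e2 + v.e2) ↔ (1 ≤ e0.e2) := by omega
  have i3 : (1 ≤ e0.e3 + v.e3) ↔ (1 ≤ e0.e3) := by omega
  have i4 : (1 ≤ e0.e4 + v.e4) ↔ (1 ≤ e0.e4) := by omega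
  have i5 : (1 ≤ e0.e5 + v.e5) ↔ (1 ≤ e0.e5) := by omega
  rcases k with _ | _ | _ | _ | _ | _ | k
  · rfl
  · simp only [mvF, Mon.add, i1]
    split_ifs with a
    · simp only [Option.map_some, Option.some.injEq, Mon.mk.injEq, and_true, true_and]; omega
    · rfl
  · simp only [mvF, Mon.add, i2]
    split_ifs with a
    · simp only [Option.map_some, Option.some.injEq, Mon.mk.injEq, and_true, true_and]; omega
    · rfl
  · simp only [mvF, Mon.add, i3]
    split_ifs with a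
    · simp only [Option.map_some, Option.some.injEq, Mon.mk.injEq, and_true, true_and]; omega
    · rfl
  · simp only [mvF, Mon.add, i4]
    split_ifs with a
    · simp only [Option.map_some, Option.some.injEq, Mon.mk.injEq, and_true, true_and]; omega
    · rfl
  · simp only [mvF, Mon.add, i5]
    split_ifs with a
    · simp only [Option.map_some, Option.some.injEq, Mon.mk.injEq, and_true, true_and]; omega
    · rfl
  · rfl

theorem mvB_add (v e0 : Mon) (h2 : v.e2 = 0 ∨ 1 ≤ e0.e2)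
    (h3 : v.e3 = 0 ∨ 1 ≤ e0.e3) (h4 : v.e4 = 0 ∨ 1 ≤ e0.e4) (h5 : v.e5 = 0 ∨ 1 ≤ e0.e5)
    (h6 : v.e6 = 0 ∨ 1 ≤ e0.e6) (k : ℕ) :
    mvB k (e0.add v) = (mvB k e0).map (fun f => f.add v) := by
  have i6 : (1 ≤ e0.e6 + v.e6) ↔ (1 ≤ e0.e6) := by omega
  have i5 : (1 ≤ e0.e5 + v.e5) ↔ (1 ≤ e0.e5) := by omega
  have i2 : (1 ≤ e0.e2 + v.e2) ↔ (1 ≤ e0.e2) := by omega
  have i3 : (1 ≤ e0.e3 + v.e3) ↔ (1 ≤ e0.e3) := by omega
  have i4 : (1 ≤ e0.e4 + v.e4) ↔ (1 ≤ e0.e4) := by omega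
  rcases k with _ | _ | _ | _ | _ | _ | k
  · rfl
  · simp only [mvB, Mon.add, i2]
    split_ifs with a
    · simp only [Option.map_some, Option.some.injEq, Mon.mk.injEq, and_true, true_and]; omega
    · rfl
  · simp only [mvB, Mon.add, i3]
    split_ifs with a
    · simp only [Option.map_some, Option.some.injEq, Mon.mk.injEq, and_true, true_and]; omega
    · rfl
  · simp only [mvB, Mon.add, i4]
    split_ifs with a
    · simp only [Option.map_some, Option.some.injEq, Mon.mk.injEq, and_true, true_and]; omega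
    · rfl
  · simp only [mvB, Mon.add, i5]
    split_ifs with a
    · simp only [Option.map_some, Option.some.injEq, Mon.mk.injEq, and_true, true_and]; omega
    · rfl
  · simp only [mvB, Mon.add, i6]
    split_ifs with a
    · simp only [Option.map_some, Option.some.injEq, Mon.mk.injEq, and_true, true_and]; omega
    · rfl
  · rfl

/-- The neighbours of `e`. -/
def Near (e f : Mon) : Prop :=
  f = e ∨ (∃ k, mvF k e = some f) ∨ (∃ k, mvB k e = some f) ∨ f = x1 e ∨ f = x45 e ∨ e = x1 f ∨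
    e = x45 f

/-- `f - e` in the coordinates. -/
def Offs (e f : Mon) (a b c d g h a' b' c' d' g' h' : ℕ) : Prop :=
  f.e1 + a = e.e1 + a' ∧ f.e2 + b = e.e2 + b' ∧ f.e3 + c = e.e3 + c' ∧ f.e4 + d = e.e4 + d' ∧
    f.e5 + g = e.e5 + g' ∧ f.e6 + h = e.e6 + h'

theorem mv_offs {k : ℕ} {e f : Mon} (h : Mv k e f) :
    Offs e f 1 0 0 0 0 0 0 1 0 0 0 0 ∨ Offs e f 0 1 0 0 0 0 0 0 1 0 0 0 ∨
    Offs e f 0 0 1 0 0 0 0 0 0 1 0 0 ∨ Offs e f 0 0 0 1 0 0 0 0 0 0 1 0 ∨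
    Offs e f 0 0 0 0 1 0 0 0 0 0 0 1 := by
  rcases h with h | h | h | h | h
  · left; unfold Offs; omega
  · right; left; unfold Offs; omega
  · right; right; left; unfold Offs; omega
  · right; right; right; left; unfold Offs; omega
  · right; right; right; right; unfold Offs; omega

theorem vm_offs {k : ℕ} {e f : Mon} (h : Mv k f e) :
    Offs e f 0 1 0 0 0 0 1 0 0 0 0 0 ∨ Offs e f 0 0 1 0 0 0 0 1 0 0 0 0 ∨
    Offs e f 0 0 0 1 0 0 0 0 1 0 0 0 ∨ Offs e f 0 0 0 0 1 0 0 0 0 1 0 0 ∨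
    Offs e f 0 0 0 0 0 1 0 0 0 0 1 0 := by
  rcases h with h | h | h | h | h
  · left; unfold Offs; omega
  · right; left; unfold Offs; omega
  · right; right; left; unfold Offs; omega
  · right; right; right; left; unfold Offs; omega
  · right; right; right; right; unfold Offs; omega

theorem near_off {e f : Mon} (h : Near e f) :
    Offs e f 0 0 0 0 0 0 0 0 0 0 0 0 ∨
    (Offs e f 1 0 0 0 0 0 0 1 0 0 0 0 ∨ Offs e f 0 1 0 0 0 0 0 0 1 0 0 0 ∨
    Offs e f 0 0 1 0 0 0 0 0 0 1 0 0 ∨ Offs e f 0 0 0 1 0 0 0 0 0 0 1 0 ∨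
    Offs e f 0 0 0 0 1 0 0 0 0 0 0 1) ∨
    (Offs e f 0 1 0 0 0 0 1 0 0 0 0 0 ∨ Offs e f 0 0 1 0 0 0 0 1 0 0 0 0 ∨
    Offs e f 0 0 0 1 0 0 0 0 1 0 0 0 ∨ Offs e f 0 0 0 0 1 0 0 0 0 1 0 0 ∨
    Offs e f 0 0 0 0 0 1 0 0 0 0 1 0) ∨
    Offs e f 0 0 0 0 0 0 1 0 0 0 0 0 ∨ Offs e f 0 0 0 0 0 0 0 0 0 1 1 0 ∨
    Offs e f 1 0 0 0 0 0 0 0 0 0 0 0 ∨ Offs e f 0 0 0 1 1 0 0 0 0 0 0 0 := by
  rcases h with h | ⟨k, h⟩ | ⟨k, h⟩ | h | h | h | h
  · subst h; left; exact ⟨rfl, rfl, rfl, rfl, rfl, rfl⟩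
  · right; left; exact mv_offs (mv_of_mvF h)
  · right; right; left; exact vm_offs (mv_of_mvB h)
  · subst h
    right; right; right; left
    exact ⟨rfl, rfl, rfl, rfl, rfl, rfl⟩
  · subst h
    right; right; right; right; left
    exact ⟨rfl, rfl, rfl, rfl, rfl, rfl⟩
  · subst h
    right; right; right; right; right; left
    exact ⟨rfl, rfl, rfl, rfl, rfl, rfl⟩
  · subst h
    right; right; right; right; right; right
    exact ⟨rfl, rfl, rfl, rfl, rfl, rfl⟩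

end Pool.L6
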