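import Pool.Agent.Helper43.L6.Loc

/-!
# Project L6: zones, canonical representatives

The shifts: `vE = x₁²`, `vD = x₆`, `v2 = x₂`, `v4 = x₄`, `vS = x₁³ x₆²`.
-/

set_option autoImplicit false

namespace Pool.L6

open Pool.LS (LLab)

/-- Addition of exponents. -/
def Mon.add (e v : Mon) : Mon :=
  ⟨e.e1 + v.e1, e.e2 + v.e2, e.e3 + v.e3, e.e4 + v.e4, e.e5 + v.e5, e.e6 + v.e6⟩

/-- the shifts -/
def vE : Mon := ⟨2, 0, 0, 0, 0, 0⟩
/-- see `vE` -/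
def vD : Mon := ⟨0, 0, 0, 0, 0, 1⟩
/-- see `vE` -/
def v2 : Mon := ⟨0, 1, 0, 0, 0, 0⟩
/-- see `vE` -/
def v4 : Mon := ⟨0, 0, 0, 1, 0, 0⟩
/-- see `vE` -/
def vS : Mon := ⟨3, 0, 0, 0, 0, 2⟩

/-- the zone `E` -/
def zE (e : Mon) : Prop := (3 * e.e6 - e.e2) + e.e4 + 8 ≤ 2 * e.e1
/-- the zone `D` -/
def zD (e : Mon) : Prop := (2 * e.e1 - e.e4) + e.e2 + 6 ≤ 3 * e.e6
/-- the `x₂`-wall -/
def z2 (e : Mon) : Prop := 6 ≤ e.e2 ∧ e.e6 = 0
/-- the `x₄`-wall -/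
def z4 (e : Mon) : Prop := 8 ≤ e.e4 ∧ e.e1 ≤ 1
/-- the periodic part of the diagonal wall -/
def zS (e : Mon) : Prop := 9 ≤ e.e1 ∧ 6 ≤ e.e6

/-- The second step of `ka`. -/
def kc (c d e3 e5 a b : ℕ) : Mon :=
  if (3 * b - c) + d + 12 ≤ 2 * a then
    ⟨a - 2 * ((2 * a - d - (3 * b - c) - 8) / 4), c, e3, d, e5, b⟩
  else if (2 * a - d) + c + 9 ≤ 3 * b then
    ⟨a, c, e3, d, e5, b - (3 * b - c - (2 * a - d) - 6) / 3⟩
  else ⟨a, c, e3, d, e5, b⟩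

/-- The canonical representative. -/
def ka (e : Mon) : Mon :=
  kc (min e.e2 6) (min e.e4 8) e.e3 e.e5
    (e.e1 - 3 * min ((e.e1 - 9) / 3) ((e.e6 - 6) / 2))
    (e.e6 - 2 * min ((e.e1 - 9) / 3) ((e.e6 - 6) / 2))

/-- The states are invariant under the shifts. -/
structure Inv {St : Type} (st : Mon → St) : Prop where
  invE : ∀ e, Red e → zE e → st (e.add vE) = st e
  invD : ∀ e, Red e → zD e → st (e.add vD) = st e
  inv2 : ∀ e, Red e → z2 e → st (e.add v2) = st e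
  inv4 : ∀ e, Red e → z4 e → st (e.add v4) = st e
  invS : ∀ e, Red e → zS e → st (e.add vS) = st e

/-- The restrictions of the labels in the zones. -/
structure ZoneOK (lab : Mon → LLab) (e : Mon) : Prop where
  okE : zE e → ∃ j, lab e = .C j
  okD : zD e → ∃ j, lab e = .B j
  ok2 : z2 e → (∃ j, lab e = .C j) ∨ ∃ c, lab e = .L c ∧ up e + c < dn e + deg e
  ok4 : z4 e → (∃ j, lab e = .B j) ∨ ∃ c, lab e = .L c ∧ ¬ isBotA (.L c) e
  okS : zS e → ∀ c, lab e ≠ .L c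

/-- The window. -/
def InOm (e : Mon) : Prop :=
  e.e2 ≤ 7 ∧ e.e4 ≤ 9 ∧ ¬ ((3 * e.e6 + 3 - e.e2) + e.e4 + 14 ≤ 2 * e.e1) ∧
    ¬ ((2 * e.e1 + 2 - e.e4) + e.e2 + 12 ≤ 3 * e.e6) ∧
    ¬ (13 ≤ e.e1 ∧ 9 ≤ e.e6)

/-! ### Functions of the canonical representative are invariant -/

theorem ka_kc (e1 e2 e3 e4 e5 e6 : ℕ) : ka ⟨e1, e2, e3, e4, e5, e6⟩ =
    kc (min e2 6) (min e4 8) e3 e5 (e1 - 3 * min ((e1 - 9) / 3) ((e6 - 6) / 2))
      (e6 - 2 * min ((e1 - 9) / 3) ((e6 - 6) / 2)) := rfl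

theorem kcE (c d e3 e5 a b : ℕ) (h : (3 * b - c) + d + 8 ≤ 2 * a) :
    kc c d e3 e5 (a + 2) b = kc c d e3 e5 a b := by
  unfold kc
  rw [if_pos (by omega)]
  split_ifs <;> simp only [Mon.mk.injEq, and_true, true_and] <;> omega

theorem kcD (c d e3 e5 a b : ℕ) (h : (2 * a - d) + c + 6 ≤ 3 * b) :
    kc c d e3 e5 a (b + 1) = kc c d e3 e5 a b := by
  unfold kc
  rw [if_neg (by omega), if_pos (by omega), if_neg (by omega)]
  split_ifs <;> simp only [Mon.mk.injEq, and_true, true_and] <;> omega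

theorem ka2 (e : Mon) (hz : z2 e) : ka (e.add v2) = ka e := by
  obtain ⟨e1, e2, e3, e4, e5, e6⟩ := e
  simp only [z2] at hz
  have h1 : min (e2 + 1) 6 = 6 := by omega
  have h2 : min e2 6 = 6 := by omega
  simp only [Mon.add, v2, Nat.add_zero]
  rw [ka_kc, ka_kc, h1, h2]

theorem ka4 (e : Mon) (hz : z4 e) : ka (e.add v4) = ka e := by
  obtain ⟨e1, e2, e3, e4, e5, e6⟩ := e
  simp only [z4] at hz
  have h1 : min (e4 + 1) 8 = 8 := by omega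
  have h2 : min e4 8 = 8 := by omega
  simp only [Mon.add, v4, Nat.add_zero]
  rw [ka_kc, ka_kc, h1, h2]

theorem kaS (e : Mon) (hz : zS e) : ka (e.add vS) = ka e := by
  obtain ⟨e1, e2, e3, e4, e5, e6⟩ := e
  simp only [zS] at hz
  have h1 : min ((e1 + 3 - 9) / 3) ((e6 + 2 - 6) / 2) =
      min ((e1 - 9) / 3) ((e6 - 6) / 2) + 1 := by omega
  simp only [Mon.add, vS, Nat.add_zero]
  rw [ka_kc, ka_kc, h1]
  congr 1 <;> omega

theorem kaE (e : Mon) (hr : Red e) (hz : zE e) : ka (e.add vE) = ka e := by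
  obtain ⟨e1, e2, e3, e4, e5, e6⟩ := e
  simp only [zE, Red] at hz hr
  simp only [Mon.add, vE, Nat.add_zero]
  have ht : min ((e1 + 2 - 9) / 3) ((e6 - 6) / 2) = (e6 - 6) / 2 := by omega
  have ht2 : min ((e1 - 9) / 3) ((e6 - 6) / 2) = (e6 - 6) / 2 := by omega
  have g2 : e1 + 2 - 3 * ((e6 - 6) / 2) = e1 - 3 * ((e6 - 6) / 2) + 2 := by omega
  rw [ka_kc, ka_kc, ht, ht2, g2]
  exact kcE _ _ _ _ _ _ (by omega)

theorem kaD (e : Mon) (hr : Red e) (hz : zD e) : ka (e.add vD) = ka e := by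
  obtain ⟨e1, e2, e3, e4, e5, e6⟩ := e
  simp only [zD, Red] at hz hr
  simp only [Mon.add, vD, Nat.add_zero]
  have ht : min ((e1 - 9) / 3) ((e6 + 1 - 6) / 2) = (e1 - 9) / 3 := by omega
  have ht2 : min ((e1 - 9) / 3) ((e6 - 6) / 2) = (e1 - 9) / 3 := by omega
  have g2 : e6 + 1 - 2 * ((e1 - 9) / 3) = e6 - 2 * ((e1 - 9) / 3) + 1 := by omega
  rw [ka_kc, ka_kc, ht, ht2, g2]
  exact kcD _ _ _ _ _ _ (by omega)

/-- Functions of the canonical representative are invariant. -/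
theorem inv_ka {St : Type} (g : Mon → St) : Inv (fun e => g (ka e)) :=
  ⟨fun e h1 h2 => congrArg g (kaE e h1 h2), fun e h1 h2 => congrArg g (kaD e h1 h2),
   fun e _ h2 => congrArg g (ka2 e h2), fun e _ h2 => congrArg g (ka4 e h2),
   fun e _ h2 => congrArg g (kaS e h2)⟩

end Pool.L6
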